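import Pool.Agent.H20.FP.Ops
import Pool.Agent.H21.NC.Defs

/-!
# The von Neumann algebra of the fields; the vacuum is a trace vector
-/

open scoped InnerProductSpace ENNReal

set_option linter.unusedSectionVars false

namespace Pool.Agent.H20.FP

open Pool.Agent.H21.NC (IsTraceVector)

variable {K F : Type*} [NormedAddCommGroup K] [InnerProductSpace ℂ K] [CompleteSpace K]
  [NormedAddCommGroup F] [InnerProductSpace ℂ F] [CompleteSpace F]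

/-- a commuting family of real multipliers -/
structure Mult (K A : Type*) [NormedAddCommGroup K] [InnerProductSpace ℂ K] [CompleteSpace K] where
  /-- the vectors -/
  v : A → K
  /-- the multiplication operators -/
  m : A → K →L[ℂ] K
  inner_symm : ∀ a b, ⟪v a, v b⟫_ℂ = ⟪v b, v a⟫_ℂ
  m_v : ∀ a b, m a (v b) = m b (v a)
  m_comm : ∀ a b h, m a (m b h) = m b (m a h)
  m_star : ∀ a, star (m a) = m a
  closed : ∀ a b, ∃ c, v c = m a (v b)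
  dense : (Submodule.span ℂ (Set.range v)).topologicalClosure = ⊤

namespace Fock

variable {A : Type*} (𝓕 : Fock K F) (𝓜 : Mult K A)

/-- the field operators -/
noncomputable def fi (a : A) : F →L[ℂ] F := 𝓕.fld (𝓜.v a) (𝓜.m a)

lemma star_fi (a : A) : star (𝓕.fi 𝓜 a) = 𝓕.fi 𝓜 a := by
  rw [fi, fld, star_add, star_add, star_star, star_lam, 𝓜.m_star, add_comm (star (𝓕.cr (𝓜.v a)))]

lemma fi_comm (a b : A) :
    𝓕.fi 𝓜 a * 𝓕.conj (𝓕.fi 𝓜 b) = 𝓕.conj (𝓕.fi 𝓜 b) * 𝓕.fi 𝓜 a := by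
  refine 𝓕.fld_comm (𝓜.inner_symm a b) (𝓜.m_v a b) (𝓜.m_comm a b) fun h => ?_
  rw [← 𝓜.m_star b, ContinuousLinearMap.star_eq_adjoint, ContinuousLinearMap.adjoint_inner_right,
    ← 𝓜.m_star a, ContinuousLinearMap.star_eq_adjoint, ContinuousLinearMap.adjoint_inner_right,
    𝓜.m_v]

/-- the generators of the right algebra -/
def rightSet : Set (F →L[ℂ] F) := Set.range fun a => 𝓕.conj (𝓕.fi 𝓜 a)

lemma star_rightSet {x : F →L[ℂ] F} (hx : x ∈ 𝓕.rightSet 𝓜) : star x ∈ 𝓕.rightSet 𝓜 := by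
  obtain ⟨a, rfl⟩ := hx
  exact ⟨a, by simp only [star_conj, star_fi]⟩

lemma rightSet_union_star : 𝓕.rightSet 𝓜 ∪ star (𝓕.rightSet 𝓜) = 𝓕.rightSet 𝓜 := by
  refine Set.union_eq_left.2 fun x hx => ?_
  have := 𝓕.star_rightSet 𝓜 (Set.mem_star.1 hx)
  rwa [star_star] at this

/-- the von Neumann algebra generated by the left fields, defined as the commutant of the
right fields -/
noncomputable def alg : VonNeumannAlgebra F where
  toStarSubalgebra := StarSubalgebra.centralizer ℂ (𝓕.rightSet 𝓜)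
  centralizer_centralizer' := by
    have h1 : (StarSubalgebra.centralizer ℂ (𝓕.rightSet 𝓜)).carrier =
        Set.centralizer (𝓕.rightSet 𝓜) := by
      have := StarSubalgebra.coe_centralizer (R := ℂ) (𝓕.rightSet 𝓜)
      rw [rightSet_union_star] at this
      exact this
    rw [h1, Set.centralizer_centralizer_centralizer]

lemma mem_alg {x : F →L[ℂ] F} :
    x ∈ 𝓕.alg 𝓜 ↔ ∀ a, 𝓕.conj (𝓕.fi 𝓜 a) * x = x * 𝓕.conj (𝓕.fi 𝓜 a) := by
  have h1 : x ∈ 𝓕.alg 𝓜 ↔ x ∈ Set.centralizer (𝓕.rightSet 𝓜) := by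
    have := StarSubalgebra.coe_centralizer (R := ℂ) (𝓕.rightSet 𝓜)
    rw [rightSet_union_star] at this
    rw [← this]
    rfl
  rw [h1, Set.mem_centralizer_iff, rightSet]
  simp

lemma fi_mem (a : A) : 𝓕.fi 𝓜 a ∈ 𝓕.alg 𝓜 := by
  rw [mem_alg]
  exact fun b => (𝓕.fi_comm 𝓜 a b).symm

/-- words in the fields -/
noncomputable def wd : List A → F →L[ℂ] F
  | [] => 1
  | a :: l => 𝓕.fi 𝓜 a * wd l

@[simp] lemma wd_nil : 𝓕.wd 𝓜 [] = 1 := rfl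
@[simp] lemma wd_cons (a : A) (l : List A) : 𝓕.wd 𝓜 (a :: l) = 𝓕.fi 𝓜 a * 𝓕.wd 𝓜 l := rfl

lemma wd_append (l l' : List A) : 𝓕.wd 𝓜 (l ++ l') = 𝓕.wd 𝓜 l * 𝓕.wd 𝓜 l' := by
  induction l with
  | nil => simp
  | cons a l ih => simp [ih, mul_assoc]

lemma star_wd (l : List A) : star (𝓕.wd 𝓜 l) = 𝓕.wd 𝓜 l.reverse := by
  induction l with
  | nil => simp
  | cons a l ih => simp [ih, wd_append, star_fi]

lemma wd_mem (l : List A) : 𝓕.wd 𝓜 l ∈ 𝓕.alg 𝓜 := by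
  induction l with
  | nil => exact one_mem _
  | cons a l ih => exact mul_mem (𝓕.fi_mem 𝓜 a) ih

lemma conj_one : 𝓕.conj (1 : F →L[ℂ] F) = 1 := by
  rw [conj, mul_one, flip_mul_flip]

lemma conj_wd_comm {x : F →L[ℂ] F} (hx : x ∈ 𝓕.alg 𝓜) (l : List A) :
    𝓕.conj (𝓕.wd 𝓜 l) * x = x * 𝓕.conj (𝓕.wd 𝓜 l) := by
  induction l with
  | nil => simp [conj_one]
  | cons a l ih =>
    rw [wd_cons, conj_mul, mul_assoc, ih, ← mul_assoc, (𝓕.mem_alg 𝓜).1 hx a, mul_assoc]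

lemma conj_fi_vac (a : A) : 𝓕.conj (𝓕.fi 𝓜 a) 𝓕.vac = 𝓕.fi 𝓜 a 𝓕.vac := by
  have h1 := 𝓕.conj_fld_el_nil (𝓜.v a) (𝓜.m a)
  have h2 := 𝓕.fld_el_nil (𝓜.v a) (𝓜.m a)
  exact h1.trans h2.symm

lemma conj_wd_vac (l : List A) : 𝓕.conj (𝓕.wd 𝓜 l) 𝓕.vac = 𝓕.wd 𝓜 l.reverse 𝓕.vac := by
  induction l using List.reverseRecOn with
  | nil => simp [conj_one]
  | append_singleton l a ih =>
    have h1 : 𝓕.wd 𝓜 (l ++ [a]) = 𝓕.wd 𝓜 l * 𝓕.fi 𝓜 a := by simp [wd_append]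
    rw [h1, conj_mul, mul_apply_eq_comp, conj_fi_vac,
      ← mul_apply_eq_comp, 𝓕.conj_wd_comm 𝓜 (𝓕.fi_mem 𝓜 a) l,
      mul_apply_eq_comp, ih]
    simp

lemma inner_star_left (x : F →L[ℂ] F) (ξ η : F) : ⟪star x ξ, η⟫_ℂ = ⟪ξ, x η⟫_ℂ := by
  rw [ContinuousLinearMap.star_eq_adjoint, ContinuousLinearMap.adjoint_inner_left]

lemma inner_star_right (x : F →L[ℂ] F) (ξ η : F) : ⟪ξ, star x η⟫_ℂ = ⟪x ξ, η⟫_ℂ := by
  rw [ContinuousLinearMap.star_eq_adjoint, ContinuousLinearMap.adjoint_inner_right]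

lemma trace_wd {y : F →L[ℂ] F} (hy : y ∈ 𝓕.alg 𝓜) (l : List A) :
    ⟪𝓕.vac, 𝓕.wd 𝓜 l (y 𝓕.vac)⟫_ℂ = ⟪𝓕.vac, y (𝓕.wd 𝓜 l 𝓕.vac)⟫_ℂ := by
  rw [← inner_star_left, star_wd, ← conj_wd_vac, ← inner_star_right, star_conj, star_wd,
    ← mul_apply_eq_comp, 𝓕.conj_wd_comm 𝓜 hy, mul_apply_eq_comp,
    conj_wd_vac, List.reverse_reverse]

/-- the span of the words -/
noncomputable def wsp : Submodule ℂ (F →L[ℂ] F) := Submodule.span ℂ (Set.range (𝓕.wd 𝓜))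

lemma wsp_le {x : F →L[ℂ] F} (hx : x ∈ 𝓕.wsp 𝓜) : x ∈ 𝓕.alg 𝓜 := by
  have : 𝓕.wsp 𝓜 ≤ Subalgebra.toSubmodule (𝓕.alg 𝓜).toStarSubalgebra.toSubalgebra := by
    rw [wsp, Submodule.span_le]
    rintro _ ⟨l, rfl⟩
    exact 𝓕.wd_mem 𝓜 l
  exact this hx

lemma trace_wsp {x y : F →L[ℂ] F} (hx : x ∈ 𝓕.wsp 𝓜) (hy : y ∈ 𝓕.alg 𝓜) :
    ⟪𝓕.vac, x (y 𝓕.vac)⟫_ℂ = ⟪𝓕.vac, y (x 𝓕.vac)⟫_ℂ := by
  induction hx using Submodule.span_induction with
  | mem x hx =>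
    obtain ⟨l, rfl⟩ := hx
    exact 𝓕.trace_wd 𝓜 hy l
  | zero => simp
  | add x z _ _ h1 h2 => simp [h1, h2]
  | smul c x _ h1 => simp [h1]

lemma star_mem_wsp {x : F →L[ℂ] F} (hx : x ∈ 𝓕.wsp 𝓜) : star x ∈ 𝓕.wsp 𝓜 := by
  induction hx using Submodule.span_induction with
  | mem x hx =>
    obtain ⟨l, rfl⟩ := hx
    rw [star_wd]
    exact Submodule.subset_span ⟨_, rfl⟩
  | zero => simp
  | add x z _ _ h1 h2 => rw [star_add]; exact add_mem h1 h2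
  | smul c x _ h1 => rw [star_smul]; exact Submodule.smul_mem _ _ h1

lemma fi_mul_mem_wsp (a : A) {x : F →L[ℂ] F} (hx : x ∈ 𝓕.wsp 𝓜) :
    𝓕.fi 𝓜 a * x ∈ 𝓕.wsp 𝓜 := by
  induction hx using Submodule.span_induction with
  | mem x hx =>
    obtain ⟨l, rfl⟩ := hx
    exact Submodule.subset_span ⟨a :: l, rfl⟩
  | zero => simp
  | add x z _ _ h1 h2 => rw [mul_add]; exact add_mem h1 h2
  | smul c x _ h1 => rw [mul_smul_comm]; exact Submodule.smul_mem _ _ h1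

/-- the elementary tensors with entries in the range of `v` are obtained from words -/
lemma el_mem (L : List A) :
    𝓕.el (L.map 𝓜.v) ∈ (𝓕.wsp 𝓜).map (ContinuousLinearMap.apply ℂ F 𝓕.vac).toLinearMap := by
  set D := (𝓕.wsp 𝓜).map (ContinuousLinearMap.apply ℂ F 𝓕.vac).toLinearMap with hD
  have hX : ∀ a, ∀ ξ ∈ D, 𝓕.fi 𝓜 a ξ ∈ D := by
    rintro a _ ⟨x, hx, rfl⟩
    refine ⟨𝓕.fi 𝓜 a * x, ?_, rfl⟩
    exact 𝓕.fi_mul_mem_wsp 𝓜 a hx
  obtain ⟨n, hn⟩ : ∃ n, L.length ≤ n := ⟨_, le_rfl⟩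
  induction n generalizing L with
  | zero =>
    have : L = [] := List.length_eq_zero_iff.1 (Nat.le_zero.1 hn)
    subst this
    exact ⟨1, Submodule.subset_span ⟨[], rfl⟩, rfl⟩
  | succ n ih =>
    cases L with
    | nil => exact ⟨1, Submodule.subset_span ⟨[], rfl⟩, rfl⟩
    | cons a L =>
      have hn' : L.length ≤ n := by simpa using hn
      cases L with
      | nil =>
        have h1 := hX a _ (ih [] (by simp))
        have h2 : 𝓕.fi 𝓜 a (𝓕.el (List.map 𝓜.v [])) = 𝓕.el (List.map 𝓜.v [a]) :=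
          𝓕.fld_el_nil (𝓜.v a) (𝓜.m a)
        rwa [h2] at h1
      | cons b L =>
        obtain ⟨c, hc⟩ := 𝓜.closed a b
        have h1 := hX a _ (ih (b :: L) hn')
        have h2 : 𝓕.fi 𝓜 a (𝓕.el (List.map 𝓜.v (b :: L))) =
            𝓕.el (List.map 𝓜.v (a :: b :: L)) + ⟪𝓜.v a, 𝓜.v b⟫_ℂ • 𝓕.el (List.map 𝓜.v L) +
              𝓕.el (List.map 𝓜.v (c :: L)) := by
          have := 𝓕.fld_el_cons (𝓜.v a) (𝓜.m a) (𝓜.v b) (List.map 𝓜.v L)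
          rw [← hc] at this
          exact this
        rw [h2] at h1
        have h3 := ih (c :: L) hn'
        have h4 := ih L (by simp at hn'; omega)
        have h5 := sub_mem (sub_mem h1 h3) (D.smul_mem ⟪𝓜.v a, 𝓜.v b⟫_ℂ h4)
        have h6 : 𝓕.el (List.map 𝓜.v (a :: b :: L)) + ⟪𝓜.v a, 𝓜.v b⟫_ℂ • 𝓕.el (List.map 𝓜.v L) +
            𝓕.el (List.map 𝓜.v (c :: L)) - 𝓕.el (List.map 𝓜.v (c :: L)) -
            ⟪𝓜.v a, 𝓜.v b⟫_ℂ • 𝓕.el (List.map 𝓜.v L) = 𝓕.el (List.map 𝓜.v (a :: b :: L)) := by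
          abel
        rwa [h6] at h5

/-- words applied to the vacuum are total -/
lemma dense_wsp : ((𝓕.wsp 𝓜).map
    (ContinuousLinearMap.apply ℂ F 𝓕.vac).toLinearMap).topologicalClosure = ⊤ := by
  set D := (𝓕.wsp 𝓜).map (ContinuousLinearMap.apply ℂ F 𝓕.vac).toLinearMap with hD
  set E : Submodule ℂ F := Submodule.span ℂ (Set.range fun L : List A => 𝓕.el (L.map 𝓜.v)) with hE
  have hED : E ≤ D := by
    rw [hE, Submodule.span_le]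
    rintro _ ⟨L, rfl⟩
    exact 𝓕.el_mem 𝓜 L
  have hE1 : E.topologicalClosure = ⊤ := by
    apply 𝓕.total
    · exact Submodule.isClosed_topologicalClosure _
    · exact Submodule.le_topologicalClosure _ (Submodule.subset_span ⟨[], rfl⟩)
    · intro h ξ hξ
      have h1 : ∀ a, ∀ η ∈ E.topologicalClosure, 𝓕.cr (𝓜.v a) η ∈ E.topologicalClosure := by
        intro a η hη
        have h2 : E ≤ E.topologicalClosure.comap (𝓕.cr (𝓜.v a)).toLinearMap := by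
          nth_rw 1 [hE]
          rw [Submodule.span_le]
          rintro _ ⟨L, rfl⟩
          exact Submodule.le_topologicalClosure _ (Submodule.subset_span ⟨a :: L, rfl⟩)
        exact Submodule.topologicalClosure_minimal _ h2
          ((Submodule.isClosed_topologicalClosure _).preimage (𝓕.cr (𝓜.v a)).continuous) hη
      have h3 : (⊤ : Submodule ℂ K) ≤ E.topologicalClosure.comap
          ((LinearMap.applyₗ ξ).comp ((ContinuousLinearMap.coeLM ℂ).comp 𝓕.cr)) := by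
        rw [← 𝓜.dense]
        refine Submodule.topologicalClosure_minimal _ ?_ ?_
        · rw [Submodule.span_le]
          rintro _ ⟨a, rfl⟩
          exact h1 a ξ hξ
        · refine (Submodule.isClosed_topologicalClosure E).preimage ?_
          have : Continuous fun h : K => 𝓕.cr h ξ :=
            ((((LinearMap.applyₗ ξ).comp ((ContinuousLinearMap.coeLM ℂ).comp 𝓕.cr)).mkContinuous
              ‖ξ‖ (fun h => by
                change ‖𝓕.cr h ξ‖ ≤ _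
                rw [𝓕.norm_cr_apply, mul_comm])).continuous)
          exact this
      exact h3 (Submodule.mem_top (x := h))
  rw [eq_top_iff, ← hE1]
  exact Submodule.topologicalClosure_mono hED

lemma norm_star_le {z : F →L[ℂ] F} (hz : z ∈ 𝓕.alg 𝓜) : ‖star z 𝓕.vac‖ ≤ ‖z 𝓕.vac‖ := by
  have h1 : ∀ b ∈ 𝓕.wsp 𝓜, ‖star b 𝓕.vac‖ = ‖b 𝓕.vac‖ := by
    intro b hb
    have h2 : ⟪star b 𝓕.vac, star b 𝓕.vac⟫_ℂ = ⟪b 𝓕.vac, b 𝓕.vac⟫_ℂ := by
      rw [inner_star_left, 𝓕.trace_wsp 𝓜 hb (𝓕.wsp_le 𝓜 (𝓕.star_mem_wsp 𝓜 hb)), inner_star_right]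
    rw [inner_self_ofReal, inner_self_ofReal] at h2
    exact (pow_left_inj₀ (norm_nonneg _) (norm_nonneg _) two_ne_zero).1 (by exact_mod_cast h2)
  have h3 : ∀ ξ, ‖⟪star z 𝓕.vac, ξ⟫_ℂ‖ ≤ ‖z 𝓕.vac‖ * ‖ξ‖ := by
    intro ξ
    have hd : Dense (((𝓕.wsp 𝓜).map
        (ContinuousLinearMap.apply ℂ F 𝓕.vac).toLinearMap : Submodule ℂ F) : Set F) :=
      Submodule.dense_iff_topologicalClosure_eq_top.2 (𝓕.dense_wsp 𝓜)
    refine hd.induction (P := fun ξ => ‖⟪star z 𝓕.vac, ξ⟫_ℂ‖ ≤ ‖z 𝓕.vac‖ * ‖ξ‖) ?_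
      (isClosed_le (by fun_prop) (by fun_prop)) ξ
    rintro _ ⟨b, hb, rfl⟩
    change ‖⟪star z 𝓕.vac, b 𝓕.vac⟫_ℂ‖ ≤ ‖z 𝓕.vac‖ * ‖b 𝓕.vac‖
    rw [inner_star_left, ← 𝓕.trace_wsp 𝓜 hb hz, ← inner_star_left, ← h1 b hb, mul_comm]
    exact norm_inner_le_norm _ _
  have h4 := h3 (star z 𝓕.vac)
  rw [inner_self_ofReal] at h4
  have h5 : ‖star z 𝓕.vac‖ ^ 2 ≤ ‖z 𝓕.vac‖ * ‖star z 𝓕.vac‖ := by
    simpa using h4
  by_contra hc
  push Not at hc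
  have h6 : 0 < ‖star z 𝓕.vac‖ := lt_of_le_of_lt (norm_nonneg _) hc
  nlinarith

lemma norm_star_eq {z : F →L[ℂ] F} (hz : z ∈ 𝓕.alg 𝓜) : ‖star z 𝓕.vac‖ = ‖z 𝓕.vac‖ := by
  refine le_antisymm (𝓕.norm_star_le 𝓜 hz) ?_
  have := 𝓕.norm_star_le 𝓜 (star_mem hz)
  rwa [star_star] at this

lemma inner_star_star {x y : F →L[ℂ] F} (hx : x ∈ 𝓕.alg 𝓜) (hy : y ∈ 𝓕.alg 𝓜) :
    ⟪star x 𝓕.vac, star y 𝓕.vac⟫_ℂ = ⟪y 𝓕.vac, x 𝓕.vac⟫_ℂ := by
  have key : ∀ c : ℂ, ⟪star (x + c • y) 𝓕.vac, star (x + c • y) 𝓕.vac⟫_ℂ =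
      ⟪(x + c • y) 𝓕.vac, (x + c • y) 𝓕.vac⟫_ℂ := by
    intro c
    have hm : x + c • y ∈ 𝓕.alg 𝓜 :=
      add_mem hx ((𝓕.alg 𝓜).toStarSubalgebra.smul_mem hy c)
    rw [inner_self_ofReal, inner_self_ofReal, 𝓕.norm_star_eq 𝓜 hm]
  have e0 := key 0
  have e1 := key 1
  have e2 := key Complex.I
  have e3 : ⟪star y 𝓕.vac, star y 𝓕.vac⟫_ℂ = ⟪y 𝓕.vac, y 𝓕.vac⟫_ℂ := by
    rw [inner_self_ofReal, inner_self_ofReal, 𝓕.norm_star_eq 𝓜 hy]
  simp only [zero_smul, add_zero, star_add, star_smul, RCLike.star_def, add_apply,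
    smul_apply, inner_add_left, inner_add_right, inner_smul_left,
    inner_smul_right, map_one, one_mul, map_neg, Complex.conj_I, neg_neg] at e0 e1 e2
  rw [e0, e3] at e1 e2
  have hI : Complex.I * Complex.I = -1 := Complex.I_mul_I
  linear_combination (1 / 2 : ℂ) * e1 + (Complex.I / 2) * e2 -
    (1 / 2 : ℂ) * (⟪star y 𝓕.vac, star x 𝓕.vac⟫_ℂ - ⟪star x 𝓕.vac, star y 𝓕.vac⟫_ℂ +
      ⟪y 𝓕.vac, x 𝓕.vac⟫_ℂ - ⟪x 𝓕.vac, y 𝓕.vac⟫_ℂ) * hI

/-- the vacuum is a faithful trace vector -/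
lemma isTraceVector : IsTraceVector (𝓕.alg 𝓜) 𝓕.vac where
  norm_one := 𝓕.norm_vac
  trace := by
    intro x hx y hy
    have h1 := 𝓕.inner_star_star 𝓜 hx (star_mem hy)
    rw [star_star, inner_star_left, inner_star_left] at h1
    exact h1
  separating := by
    intro x hx h0
    have hd : Dense (((𝓕.wsp 𝓜).map
        (ContinuousLinearMap.apply ℂ F 𝓕.vac).toLinearMap : Submodule ℂ F) : Set F) :=
      Submodule.dense_iff_topologicalClosure_eq_top.2 (𝓕.dense_wsp 𝓜)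
    refine DFunLike.coe_injective
      (Continuous.ext_on hd x.continuous (0 : F →L[ℂ] F).continuous ?_)
    rintro _ ⟨b, hb, rfl⟩
    change x (b 𝓕.vac) = 0
    have hb' : b ∈ 𝓕.wsp 𝓜 := hb
    clear hb
    induction hb' using Submodule.span_induction with
    | mem b hb =>
      obtain ⟨l, rfl⟩ := hb
      rw [← List.reverse_reverse l, ← conj_wd_vac, ← mul_apply_eq_comp, ← 𝓕.conj_wd_comm 𝓜 hx,
        mul_apply_eq_comp, h0, map_zero]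
    | zero => simp
    | add x z _ _ h1 h2 => simp [h1, h2]
    | smul c x _ h1 => simp [h1]

end Fock

end Pool.Agent.H20.FP
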