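import Pool.Agent.H20.FP.Model

/-!
# Operators on a full Fock space: extension lemmas, differential second quantisation, flip
-/

open scoped InnerProductSpace ENNReal

namespace Pool.Agent.H20.FP

lemma inner_self_ofReal {E : Type*} [NormedAddCommGroup E] [InnerProductSpace ℂ E] (x : E) :
    ⟪x, x⟫_ℂ = ((‖x‖ ^ 2 : ℝ) : ℂ) := by
  rw [inner_self_eq_norm_sq_to_K, Complex.ofReal_pow]; rfl

section Ext

set_option linter.unusedSectionVars false

variable {F G : Type*} [NormedAddCommGroup F] [InnerProductSpace ℂ F]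
  [NormedAddCommGroup G] [InnerProductSpace ℂ G] [CompleteSpace G] {ι : Type*}

lemma dense_lc {e : ι → F} (he : (Submodule.span ℂ (Set.range e)).topologicalClosure = ⊤) :
    DenseRange (Finsupp.linearCombination ℂ e) := by
  have h1 : Set.range (Finsupp.linearCombination ℂ e) =
      (Submodule.span ℂ (Set.range e) : Set F) := by
    rw [← Finsupp.range_linearCombination]; rfl
  rw [DenseRange, h1]
  exact Submodule.dense_iff_topologicalClosure_eq_top.2 he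

lemma exists_bounded {e : ι → F} (he : (Submodule.span ℂ (Set.range e)).topologicalClosure = ⊤)
    (a : ι → G) {C : ℝ} (hC : 0 ≤ C)
    (h : ∀ x : ι →₀ ℂ, ‖Finsupp.linearCombination ℂ a x‖ ≤ C * ‖Finsupp.linearCombination ℂ e x‖) :
    ∃ A : F →L[ℂ] G, (∀ i, A (e i) = a i) ∧ ‖A‖ ≤ C := by
  refine ⟨(Finsupp.linearCombination ℂ a).extendOfNorm (Finsupp.linearCombination ℂ e),
    fun i => ?_, LinearMap.opNorm_extendOfNorm_le (dense_lc he) hC h⟩
  have h1 := LinearMap.extendOfNorm_eq (f := Finsupp.linearCombination ℂ a) (dense_lc he) ⟨C, h⟩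
    (Finsupp.single i 1)
  simpa using h1

lemma norm_lc {e : ι → F} {a : ι → G} (h : ∀ i j, ⟪a i, a j⟫_ℂ = ⟪e i, e j⟫_ℂ) (x : ι →₀ ℂ) :
    ‖Finsupp.linearCombination ℂ a x‖ = ‖Finsupp.linearCombination ℂ e x‖ := by
  have h1 : ⟪Finsupp.linearCombination ℂ a x, Finsupp.linearCombination ℂ a x⟫_ℂ =
      ⟪Finsupp.linearCombination ℂ e x, Finsupp.linearCombination ℂ e x⟫_ℂ := by
    simp only [Finsupp.linearCombination_apply, Finsupp.sum, sum_inner, inner_sum,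
      inner_smul_left, inner_smul_right, h]
  rw [inner_self_ofReal, inner_self_ofReal] at h1
  have h2 : ‖Finsupp.linearCombination ℂ a x‖ ^ 2 = ‖Finsupp.linearCombination ℂ e x‖ ^ 2 := by
    exact_mod_cast h1
  exact (pow_left_inj₀ (norm_nonneg _) (norm_nonneg _) two_ne_zero).1 h2

lemma exists_isometry {e : ι → F} (he : (Submodule.span ℂ (Set.range e)).topologicalClosure = ⊤)
    (a : ι → G) (h : ∀ i j, ⟪a i, a j⟫_ℂ = ⟪e i, e j⟫_ℂ) :
    ∃ A : F →ₗᵢ[ℂ] G, ∀ i, A (e i) = a i := by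
  have h0 := norm_lc h
  obtain ⟨A, hA, -⟩ := exists_bounded he a zero_le_one (fun x => by rw [h0 x, one_mul])
  have h1 : ∀ x, ‖A x‖ = ‖x‖ := by
    intro x
    refine (dense_lc he).induction_on (p := fun x => ‖A x‖ = ‖x‖) x
      (isClosed_eq (by fun_prop) (by fun_prop)) fun y => ?_
    rw [← h0 y]
    congr 1
    rw [Finsupp.linearCombination_apply, Finsupp.linearCombination_apply, Finsupp.sum,
      Finsupp.sum, map_sum]
    simp [hA]
  exact ⟨⟨A.toLinearMap, h1⟩, hA⟩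

lemma clm_ext {e : ι → F} (he : (Submodule.span ℂ (Set.range e)).topologicalClosure = ⊤)
    {A B : F →L[ℂ] G} (h : ∀ i, A (e i) = B (e i)) : A = B := by
  refine ContinuousLinearMap.ext_on (s := Set.range e)
    (Submodule.dense_iff_topologicalClosure_eq_top.2 he) ?_
  rintro _ ⟨i, rfl⟩
  exact h i

end Ext

variable {K F : Type*} [NormedAddCommGroup K] [InnerProductSpace ℂ K]
  [NormedAddCommGroup F] [InnerProductSpace ℂ F] [CompleteSpace F]

namespace Fock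

/-- elementary tensors -/
noncomputable def el (𝓕 : Fock K F) : List K → F
  | [] => 𝓕.vac
  | h :: L => 𝓕.cr h (𝓕.el L)

@[simp] lemma el_nil (𝓕 : Fock K F) : 𝓕.el [] = 𝓕.vac := rfl
@[simp] lemma el_cons (𝓕 : Fock K F) (h : K) (L : List K) :
    𝓕.el (h :: L) = 𝓕.cr h (𝓕.el L) := rfl

/-- Gram matrix of the elementary tensors -/
noncomputable def gram : List K → List K → ℂ
  | [], [] => 1
  | g :: L, h :: L' => ⟪g, h⟫_ℂ * gram L L'
  | [], _ :: _ => 0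
  | _ :: _, [] => 0

lemma inner_cr_vac (𝓕 : Fock K F) (h : K) (ξ : F) : ⟪𝓕.cr h ξ, 𝓕.vac⟫_ℂ = 0 := by
  rw [← inner_conj_symm, 𝓕.inner_vac_cr, map_zero]

lemma inner_vac_vac (𝓕 : Fock K F) : ⟪𝓕.vac, 𝓕.vac⟫_ℂ = 1 := by
  rw [inner_self_ofReal, 𝓕.norm_vac]; simp

lemma inner_el (𝓕 : Fock K F) (L L' : List K) : ⟪𝓕.el L, 𝓕.el L'⟫_ℂ = gram L L' := by
  induction L generalizing L' with
  | nil =>
    cases L' with
    | nil => rw [el_nil, 𝓕.inner_vac_vac]; rfl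
    | cons h L' => simp [gram, 𝓕.inner_vac_cr]
  | cons g L ih =>
    cases L' with
    | nil => simp [gram, 𝓕.inner_cr_vac]
    | cons h L' => simp [gram, 𝓕.inner_cr, ih]

lemma dense_el (𝓕 : Fock K F) :
    (Submodule.span ℂ (Set.range 𝓕.el)).topologicalClosure = ⊤ := by
  apply 𝓕.total
  · exact Submodule.isClosed_topologicalClosure _
  · exact Submodule.le_topologicalClosure _ (Submodule.subset_span ⟨[], rfl⟩)
  · intro h ξ hξ
    have h1 : (Submodule.span ℂ (Set.range 𝓕.el)) ≤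
        (Submodule.span ℂ (Set.range 𝓕.el)).topologicalClosure.comap (𝓕.cr h).toLinearMap := by
      rw [Submodule.span_le]
      rintro _ ⟨L, rfl⟩
      exact Submodule.le_topologicalClosure _ (Submodule.subset_span ⟨h :: L, rfl⟩)
    have h2 : (Submodule.span ℂ (Set.range 𝓕.el)).topologicalClosure ≤
        (Submodule.span ℂ (Set.range 𝓕.el)).topologicalClosure.comap (𝓕.cr h).toLinearMap :=
      Submodule.topologicalClosure_minimal _ h1
        ((Submodule.isClosed_topologicalClosure _).preimage (𝓕.cr h).continuous)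
    exact h2 hξ

lemma ext {G : Type*} [NormedAddCommGroup G] [InnerProductSpace ℂ G] [CompleteSpace G]
    (𝓕 : Fock K F) {A B : F →L[ℂ] G} (h : ∀ L, A (𝓕.el L) = B (𝓕.el L)) : A = B :=
  clm_ext 𝓕.dense_el h

lemma hasSum_norm_sq (𝓕 : Fock K F) {ι κ : Type*} (b : HilbertBasis ι ℂ F) (J : Finset κ)
    (h : κ → K) (ξ : κ → F) :
    HasSum (fun k => ‖∑ j ∈ J, ⟪b k, ξ j⟫_ℂ • h j‖ ^ 2) (‖∑ j ∈ J, 𝓕.cr (h j) (ξ j)‖ ^ 2) := by
  have h1 : HasSum (fun k => ∑ i ∈ J, ∑ j ∈ J, (⟪ξ i, b k⟫_ℂ * ⟪b k, ξ j⟫_ℂ) * ⟪h i, h j⟫_ℂ)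
      (∑ i ∈ J, ∑ j ∈ J, ⟪ξ i, ξ j⟫_ℂ * ⟪h i, h j⟫_ℂ) :=
    hasSum_sum fun i _ => hasSum_sum fun j _ => (b.hasSum_inner_mul_inner (ξ i) (ξ j)).mul_right _
  have h2 : (∑ i ∈ J, ∑ j ∈ J, ⟪ξ i, ξ j⟫_ℂ * ⟪h i, h j⟫_ℂ) =
      ((‖∑ j ∈ J, 𝓕.cr (h j) (ξ j)‖ ^ 2 : ℝ) : ℂ) := by
    rw [← inner_self_ofReal]
    simp only [sum_inner, inner_sum, 𝓕.inner_cr]
    rw [Finset.sum_comm]
    refine Finset.sum_congr rfl fun i _ => Finset.sum_congr rfl fun j _ => mul_comm _ _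
  have h3 : ∀ k, (∑ i ∈ J, ∑ j ∈ J, (⟪ξ i, b k⟫_ℂ * ⟪b k, ξ j⟫_ℂ) * ⟪h i, h j⟫_ℂ) =
      ((‖∑ j ∈ J, ⟪b k, ξ j⟫_ℂ • h j‖ ^ 2 : ℝ) : ℂ) := by
    intro k
    rw [← inner_self_ofReal]
    simp only [sum_inner, inner_sum, inner_smul_left, inner_smul_right, inner_conj_symm,
      Finset.mul_sum]
    rw [Finset.sum_comm]
    refine Finset.sum_congr rfl fun i _ => Finset.sum_congr rfl fun j _ => by ring
  rw [h2] at h1
  simp only [h3] at h1
  exact_mod_cast h1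

lemma norm_sum_le (𝓕 : Fock K F) {κ : Type*} (T : K →L[ℂ] K) (J : Finset κ)
    (h : κ → K) (ξ : κ → F) :
    ‖∑ j ∈ J, 𝓕.cr (T (h j)) (ξ j)‖ ≤ ‖T‖ * ‖∑ j ∈ J, 𝓕.cr (h j) (ξ j)‖ := by
  obtain ⟨w, b, -⟩ := exists_hilbertBasis ℂ F
  have h1 := 𝓕.hasSum_norm_sq b J h ξ
  have h2 := 𝓕.hasSum_norm_sq b J (fun j => T (h j)) ξ
  have h3 := hasSum_le (fun k => ?_) h2 (h1.mul_left (‖T‖ ^ 2))
  · rw [← mul_pow] at h3
    exact (pow_le_pow_iff_left₀ (norm_nonneg _) (by positivity) two_ne_zero).1 h3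
  · have h4 : (∑ j ∈ J, ⟪b k, ξ j⟫_ℂ • T (h j)) = T (∑ j ∈ J, ⟪b k, ξ j⟫_ℂ • h j) := by
      simp
    rw [h4, ← mul_pow]
    exact pow_le_pow_left₀ (norm_nonneg _) (T.le_opNorm _) 2

/-- head with default `0` -/
noncomputable def hd : List K → K
  | [] => 0
  | h :: _ => h

lemma exists_lam (𝓕 : Fock K F) (T : K →L[ℂ] K) :
    ∃ A : F →L[ℂ] F, (∀ L, A (𝓕.el L) = 𝓕.cr (T (hd L)) (𝓕.el L.tail)) ∧ ‖A‖ ≤ ‖T‖ := by
  refine exists_bounded 𝓕.dense_el _ (norm_nonneg _) fun x => ?_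
  have h1 : Finsupp.linearCombination ℂ 𝓕.el x = (x []) • 𝓕.vac +
      ∑ L ∈ x.support, 𝓕.cr (hd L) (x L • 𝓕.el L.tail) := by
    classical
    rw [Finsupp.linearCombination_apply, Finsupp.sum]
    have h2 : (x []) • 𝓕.vac = ∑ L ∈ x.support, if L = [] then (x []) • 𝓕.vac else 0 := by
      rw [Finset.sum_ite_eq' x.support [] (fun _ => (x []) • 𝓕.vac)]
      split_ifs with h
      · rfl
      · simp [Finsupp.notMem_support_iff.1 h]
    rw [h2, ← Finset.sum_add_distrib]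
    refine Finset.sum_congr rfl fun L _ => ?_
    cases L with
    | nil => simp [hd]
    | cons h L => simp [hd]
  have h2 : Finsupp.linearCombination ℂ (fun L => 𝓕.cr (T (hd L)) (𝓕.el L.tail)) x =
      ∑ L ∈ x.support, 𝓕.cr (T (hd L)) (x L • 𝓕.el L.tail) := by
    rw [Finsupp.linearCombination_apply, Finsupp.sum]
    simp
  rw [h2, h1]
  refine (𝓕.norm_sum_le T x.support hd _).trans ?_
  refine mul_le_mul_of_nonneg_left ?_ (norm_nonneg _)
  set η := ∑ L ∈ x.support, 𝓕.cr (hd L) (x L • 𝓕.el L.tail) with hη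
  have h3 : ⟪(x []) • 𝓕.vac, η⟫_ℂ = 0 := by
    rw [hη, inner_smul_left, inner_sum, Finset.sum_eq_zero fun L _ => 𝓕.inner_vac_cr _ _, mul_zero]
  have h4 := norm_add_sq_eq_norm_sq_add_norm_sq_of_inner_eq_zero _ _ h3
  have h5 : ‖η‖ * ‖η‖ ≤ ‖(x []) • 𝓕.vac + η‖ * ‖(x []) • 𝓕.vac + η‖ := by
    rw [h4]; nlinarith [mul_self_nonneg ‖(x []) • 𝓕.vac‖]
  exact le_of_not_gt fun h => absurd h5 (not_le.2 (mul_self_lt_mul_self (norm_nonneg _) h))

end Fock

end Pool.Agent.H20.FP
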