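import Pool.Agent.H20.FP.Main

/-!
# Existence of the free Poisson field with a flow
-/

open MeasureTheory ENNReal NNReal
open scoped InnerProductSpace

set_option linter.unusedSectionVars false

namespace Pool.Agent.H20.FP

open Pool.Agent.H21.NC (IsTraceVector FreePoisson FreePoissonFlow)

section Flow

variable {Z F : Type*} [MeasurableSpace Z] {ν : Measure Z}
  [NormedAddCommGroup F] [InnerProductSpace ℂ F] [CompleteSpace F] (𝓕 : Fock (Lp ℂ 2 ν) F)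
  {φ : ℝ → Z → Z} (hφ : ∀ t, MeasurePreserving (φ t) ν ν)

/-- the one-particle flow -/
noncomputable def U (t : ℝ) : Lp ℂ 2 ν →ₗᵢ[ℂ] Lp ℂ 2 ν :=
  Lp.compMeasurePreservingₗᵢ ℂ (φ (-t)) (hφ (-t))

lemma coe_U (t : ℝ) (h : Lp ℂ 2 ν) : U hφ t h =ᵐ[ν] fun z => h (φ (-t) z) :=
  Lp.coeFn_compMeasurePreserving h (hφ (-t))

lemma U_U (hadd : ∀ s t z, φ (s + t) z = φ s (φ t z)) (s t : ℝ) (h : Lp ℂ 2 ν) :
    U hφ s (U hφ t h) = U hφ (s + t) h := by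
  refine Lp.ext ?_
  have h1 := (hφ (-s)).quasiMeasurePreserving.ae_eq_comp (coe_U hφ t h)
  filter_upwards [coe_U hφ s (U hφ t h), h1, coe_U hφ (s + t) h] with z e1 e2 e3
  rw [e1, e3]
  simp only [Function.comp] at e2
  rw [e2, ← hadd]
  congr 2
  ring

lemma U_comp (hadd : ∀ s t z, φ (s + t) z = φ s (φ t z)) (s t : ℝ) :
    (U hφ s).comp (U hφ t) = U hφ (s + t) := by
  ext1 h
  exact U_U hφ hadd s t h

lemma U_zero (h0 : ∀ z, φ 0 z = z) (h : Lp ℂ 2 ν) : U hφ 0 h = h := by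
  refine Lp.ext ?_
  filter_upwards [coe_U hφ 0 h] with z e1
  rw [e1, neg_zero, h0]

lemma U_zero' (h0 : ∀ z, φ 0 z = z) : U hφ 0 = LinearIsometry.id := by
  ext1 h
  exact U_zero hφ h0 h

/-- the transported function -/
noncomputable def tr (t : ℝ) (f : RF ν) : RF ν :=
  ⟨fun z => f.1 (φ (-t) z), f.2.1.comp_measurePreserving (hφ (-t)),
    f.2.2.comp_measurePreserving (hφ (-t))⟩

lemma U_rv (t : ℝ) (f : RF ν) : U hφ t (rv f) = rv (tr hφ t f) := by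
  refine Lp.ext ?_
  have h1 := (hφ (-t)).quasiMeasurePreserving.ae_eq_comp (coe_rv f)
  filter_upwards [coe_U hφ t (rv f), h1, coe_rv (tr hφ t f)] with z e1 e2 e3
  rw [e1, e3]
  exact e2

lemma U_rm (t : ℝ) (f : RF ν) (h : Lp ℂ 2 ν) :
    U hφ t (rm f h) = rm (tr hφ t f) (U hφ t h) := by
  refine Lp.ext ?_
  have h1 := (hφ (-t)).quasiMeasurePreserving.ae_eq_comp (coe_rm f h)
  filter_upwards [coe_U hφ t (rm f h), h1, coe_rm (tr hφ t f) (U hφ t h), coe_U hφ t h]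
    with z e1 e2 e3 e4
  rw [e1, e3, e4]
  exact e2

/-- the flow on the Fock space -/
noncomputable def Gam (h0 : ∀ z, φ 0 z = z) (hadd : ∀ s t z, φ (s + t) z = φ s (φ t z)) (t : ℝ) :
    F ≃ₗᵢ[ℂ] F where
  toFun := 𝓕.gam (U hφ t)
  map_add' := map_add _
  map_smul' := map_smul _
  invFun := 𝓕.gam (U hφ (-t))
  left_inv ξ := by rw [𝓕.gam_gam, U_comp hφ hadd, neg_add_cancel, U_zero' hφ h0, 𝓕.gam_id]
  right_inv ξ := by rw [𝓕.gam_gam, U_comp hφ hadd, add_neg_cancel, U_zero' hφ h0, 𝓕.gam_id]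
  norm_map' ξ := (𝓕.gam (U hφ t)).norm_map ξ

lemma Gam_apply (h0 : ∀ z, φ 0 z = z) (hadd : ∀ s t z, φ (s + t) z = φ s (φ t z)) (t : ℝ) (ξ : F) :
    Gam 𝓕 hφ h0 hadd t ξ = 𝓕.gam (U hφ t) ξ := rfl

theorem freePoissonFlow (h0 : ∀ z, φ 0 z = z) (hadd : ∀ s t z, φ (s + t) z = φ s (φ t z))
    (hcont : ∀ f : Lp ℂ 2 ν, Continuous fun t => Lp.compMeasurePreserving (φ t) (hφ t) f) :
    FreePoissonFlow ν (𝓕.alg (l2mult ν)) 𝓕.vac (fX 𝓕) φ (Gam 𝓕 hφ h0 hadd) where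
  zero ξ := by rw [Gam_apply, U_zero' hφ h0, 𝓕.gam_id]
  add s t ξ := by
    rw [Gam_apply, Gam_apply, Gam_apply, 𝓕.gam_gam, U_comp hφ hadd]
  vacuum t := 𝓕.gam_vac _
  covariant t f ξ h2 ht := by
    have e1 : fX 𝓕 (fun z => f (φ (-t) z)) =
        𝓕.fld (rv (tr hφ t ⟨f, h2, ht⟩)) (rm (tr hφ t ⟨f, h2, ht⟩)) :=
      fX_eq 𝓕 (tr hφ t ⟨f, h2, ht⟩).2.1 (tr hφ t ⟨f, h2, ht⟩).2.2
    rw [fX_eq 𝓕 h2 ht, e1, Gam_apply, Gam_apply, 𝓕.gam_fld _ (U_rm hφ t ⟨f, h2, ht⟩), U_rv]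
  mem t x hx := by
    rw [Fock.mem_alg]
    intro f
    have hf := (𝓕.mem_alg (l2mult ν)).1 hx (tr hφ (-t) f)
    have key : ∀ (s : ℝ) (g : RF ν) (ξ : F),
        𝓕.gam (U hφ s) (𝓕.conj (𝓕.fi (l2mult ν) g) ξ) =
          𝓕.conj (𝓕.fi (l2mult ν) (tr hφ s g)) (𝓕.gam (U hφ s) ξ) := by
      intro s g ξ
      have := 𝓕.gam_conj_fld (U hφ s) (f := rv g) (U_rm hφ s g) ξ
      rw [U_rv] at this
      exact this
    have htr : tr hφ t (tr hφ (-t) f) = f := by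
      refine Subtype.ext (funext fun z => ?_)
      simp only [tr]
      rw [← hadd]
      simp [h0]
    ext1 ξ
    change 𝓕.conj (𝓕.fi (l2mult ν) f) (𝓕.gam (U hφ t) (x (𝓕.gam (U hφ (-t)) ξ))) =
      𝓕.gam (U hφ t) (x (𝓕.gam (U hφ (-t)) (𝓕.conj (𝓕.fi (l2mult ν) f) ξ)))
    have e1 := key t (tr hφ (-t) f) (x (𝓕.gam (U hφ (-t)) ξ))
    rw [htr] at e1
    rw [key (-t) f ξ, ← e1]
    congr 1
    exact DFunLike.congr_fun hf (𝓕.gam (U hφ (-t)) ξ)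
  cont ξ := 𝓕.continuous_gam (fun h => (hcont h).comp continuous_neg) ξ

end Flow

/-- Existence of the free Poisson random measure with a flow. -/
theorem exists_freePoisson {Z : Type} [MeasurableSpace Z] (ν : Measure Z) (hν : ν ≠ 0)
    (φ : ℝ → Z → Z) (hφ : ∀ t, MeasurePreserving (φ t) ν ν) (h0 : ∀ z, φ 0 z = z)
    (hadd : ∀ s t z, φ (s + t) z = φ s (φ t z))
    (hcont : ∀ f : Lp ℂ 2 ν, Continuous fun t => Lp.compMeasurePreserving (φ t) (hφ t) f) :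
    ∃ (H : Type) (_ : NormedAddCommGroup H) (_ : InnerProductSpace ℂ H) (_ : CompleteSpace H)
      (M : VonNeumannAlgebra H) (Ω : H) (emb : Lp ℂ 2 ν →ₗᵢ[ℂ] H) (X : (Z → ℝ) → H →L[ℂ] H)
      (Γ : ℝ → H ≃ₗᵢ[ℂ] H),
      FreePoisson ν M Ω emb X ∧ FreePoissonFlow ν M Ω X φ Γ := by
  obtain ⟨w, b, -⟩ := exists_hilbertBasis ℂ (Lp ℂ 2 ν)
  exact ⟨Words w, inferInstance, inferInstance, inferInstance, (model b).alg (l2mult ν),
    (model b).vac, (model b).emb, fX (model b), Gam (model b) hφ h0 hadd,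
    freePoisson (model b) hν, freePoissonFlow (model b) hφ h0 hadd hcont⟩

end Pool.Agent.H20.FP
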