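import Pool.Agent.H20.FP.Alg

/-!
# Multiplication operators on `L²` and the concrete multiplier family
-/

open MeasureTheory ENNReal NNReal
open scoped InnerProductSpace

set_option linter.unusedSectionVars false

namespace Pool.Agent.H20.FP

variable {Z : Type*} [MeasurableSpace Z] (ν : Measure Z)

/-- real functions in `L² ∩ L^∞` -/
abbrev RF := {f : Z → ℝ // MemLp f 2 ν ∧ MemLp f ∞ ν}

variable {ν}

/-- the vector of a real function -/
noncomputable def rv (f : RF ν) : Lp ℂ 2 ν :=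
  MemLp.toLp (fun z => (f.1 z : ℂ)) f.2.1.ofReal

lemma coe_rv (f : RF ν) : rv f =ᵐ[ν] fun z => (f.1 z : ℂ) := MemLp.coeFn_toLp _

/-- multiplication by a bounded real function -/
noncomputable def rm (f : RF ν) : Lp ℂ 2 ν →L[ℂ] Lp ℂ 2 ν :=
  (ContinuousLinearMap.mul ℂ ℂ).holderL ν ∞ 2 2
    (MemLp.toLp (fun z => (f.1 z : ℂ)) f.2.2.ofReal)

lemma coe_rm (f : RF ν) (h : Lp ℂ 2 ν) : rm f h =ᵐ[ν] fun z => (f.1 z : ℂ) * h z := by
  have h1 := (ContinuousLinearMap.mul ℂ ℂ).coeFn_holder (r := 2)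
    (MemLp.toLp (fun z => (f.1 z : ℂ)) f.2.2.ofReal : Lp ℂ ∞ ν) h
  have h2 : (MemLp.toLp (fun z => (f.1 z : ℂ)) f.2.2.ofReal : Lp ℂ ∞ ν) =ᵐ[ν]
      fun z => (f.1 z : ℂ) := MemLp.coeFn_toLp _
  filter_upwards [h1, h2] with z h3 h4
  rw [show (rm f h : Z → ℂ) z = _ from h3, h4]
  rfl

lemma norm_rm_le (f : RF ν) {C : ℝ} (hC : 0 ≤ C) (h : ∀ᵐ z ∂ν, |f.1 z| ≤ C) : ‖rm f‖ ≤ C := by
  refine ContinuousLinearMap.opNorm_le_bound _ hC fun g => ?_
  refine Lp.norm_le_mul_norm_of_ae_le_mul ?_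
  filter_upwards [coe_rm f g, h] with z h1 h2
  rw [h1, norm_mul, Complex.norm_real]
  exact mul_le_mul_of_nonneg_right h2 (norm_nonneg _)

lemma l2_inner_def (g h : Lp ℂ 2 ν) : ⟪g, h⟫_ℂ = ∫ z, ⟪g z, h z⟫_ℂ ∂ν := L2.inner_def g h

lemma inner_rv_rv (f g : RF ν) : ⟪rv f, rv g⟫_ℂ = ((∫ z, f.1 z * g.1 z ∂ν : ℝ) : ℂ) := by
  rw [l2_inner_def, ← integral_complex_ofReal]
  refine integral_congr_ae ?_
  filter_upwards [coe_rv f, coe_rv g] with z h1 h2
  rw [h1, h2]
  simp [mul_comm]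

/-- the product of two functions -/
noncomputable def rmul (f g : RF ν) : RF ν :=
  ⟨fun z => f.1 z * g.1 z, g.2.1.mul f.2.2, g.2.2.mul f.2.2⟩

lemma rm_rv (f g : RF ν) : rm f (rv g) = rv (rmul f g) := by
  refine Lp.ext ?_
  filter_upwards [coe_rm f (rv g), coe_rv g, coe_rv (rmul f g)] with z h1 h2 h3
  rw [h1, h2, h3]
  simp [rmul]

lemma rm_comm (f g : RF ν) (h : Lp ℂ 2 ν) : rm f (rm g h) = rm g (rm f h) := by
  refine Lp.ext ?_
  filter_upwards [coe_rm f (rm g h), coe_rm g h, coe_rm g (rm f h), coe_rm f h] with z h1 h2 h3 h4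
  rw [h1, h2, h3, h4]
  ring

lemma star_rm (f : RF ν) : star (rm f) = rm f := by
  ext1 g
  refine ext_inner_right ℂ fun h => ?_
  rw [ContinuousLinearMap.star_eq_adjoint, ContinuousLinearMap.adjoint_inner_left,
    l2_inner_def, l2_inner_def]
  refine integral_congr_ae ?_
  filter_upwards [coe_rm f g, coe_rm f h] with z h1 h2
  rw [h1, h2]
  simp
  ring

lemma dense_rv : (Submodule.span ℂ (Set.range (rv (ν := ν)))).topologicalClosure = ⊤ := by
  rw [eq_top_iff]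
  intro f _
  refine Lp.induction (p := 2) (by norm_num)
    (fun f => f ∈ (Submodule.span ℂ (Set.range (rv (ν := ν)))).topologicalClosure) ?_ ?_ ?_ f
  · intro c s hs hμs
    refine Submodule.le_topologicalClosure _ ?_
    have hm2 : MemLp (s.indicator (fun _ => (1 : ℝ))) 2 ν := memLp_indicator_const 2 hs 1 (Or.inr hμs.ne)
    have hmt : MemLp (s.indicator (fun _ => (1 : ℝ))) ∞ ν := memLp_indicator_const ∞ hs 1 (Or.inr hμs.ne)
    have h1 : (Lp.simpleFunc.indicatorConst 2 hs hμs.ne c : Lp ℂ 2 ν) =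
        c • rv ⟨s.indicator (fun _ => (1 : ℝ)), hm2, hmt⟩ := by
      rw [Lp.simpleFunc.coe_indicatorConst]
      refine Lp.ext ?_
      filter_upwards [indicatorConstLp_coeFn (p := 2) (hs := hs) (hμs := hμs.ne) (c := c),
        Lp.coeFn_smul c (rv ⟨s.indicator (fun _ => (1 : ℝ)), hm2, hmt⟩),
        coe_rv (⟨s.indicator (fun _ => (1 : ℝ)), hm2, hmt⟩ : RF ν)] with z h1 h2 h3
      rw [h1, h2, Pi.smul_apply, h3]
      by_cases hz : z ∈ s
      · simp [hz]
      · simp [hz]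
    rw [h1]
    exact Submodule.smul_mem _ _ (Submodule.subset_span ⟨_, rfl⟩)
  · intro f g hf hg _ h1 h2
    exact add_mem h1 h2
  · exact Submodule.isClosed_topologicalClosure _

/-- the concrete multiplier family -/
noncomputable def l2mult (ν : Measure Z) : Mult (Lp ℂ 2 ν) (RF ν) where
  v := rv
  m := rm
  inner_symm f g := by
    rw [inner_rv_rv, inner_rv_rv]
    simp only [mul_comm]
  m_v f g := by
    rw [rm_rv, rm_rv]
    congr 1
    exact Subtype.ext (funext fun z => mul_comm _ _)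
  m_comm := rm_comm
  m_star := star_rm
  closed f g := ⟨rmul f g, (rm_rv f g).symm⟩
  dense := dense_rv

end Pool.Agent.H20.FP
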