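import Pool.Agent.H20.FP.L2

/-!
# The free Poisson field on the full Fock space over `L²`
-/

open MeasureTheory ENNReal NNReal
open scoped InnerProductSpace

set_option linter.unusedSectionVars false

namespace Pool.Agent.H20.FP

open Pool.Agent.H21.NC (IsTraceVector FreePoisson FreePoissonFlow)

namespace Fock

variable {K F : Type*} [NormedAddCommGroup K] [InnerProductSpace ℂ K] [CompleteSpace K]
  [NormedAddCommGroup F] [InnerProductSpace ℂ F] [CompleteSpace F] (𝓕 : Fock K F)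

/-- the embedding of the one-particle space -/
noncomputable def emb : K →ₗᵢ[ℂ] F where
  toFun h := 𝓕.cr h 𝓕.vac
  map_add' g h := by simp
  map_smul' c h := by simp
  norm_map' h := by
    change ‖𝓕.cr h 𝓕.vac‖ = ‖h‖
    rw [𝓕.norm_cr_apply, 𝓕.norm_vac, mul_one]

lemma emb_apply (h : K) : 𝓕.emb h = 𝓕.cr h 𝓕.vac := rfl

lemma fld_congr {f g : K} {S T : K →L[ℂ] K} (h1 : f = g) (h2 : S = T) :
    𝓕.fld f S = 𝓕.fld g T := by rw [h1, h2]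

lemma fld_add (f g : K) (S T : K →L[ℂ] K) :
    𝓕.fld (f + g) (S + T) = 𝓕.fld f S + 𝓕.fld g T := by
  rw [fld, fld, fld, map_add, star_add, lam_add]
  abel

lemma fld_smul (r : ℝ) (f : K) (S : K →L[ℂ] K) :
    𝓕.fld ((r : ℂ) • f) ((r : ℂ) • S) = (r : ℂ) • 𝓕.fld f S := by
  rw [fld, fld, map_smul, star_smul, lam_smul, RCLike.star_def, Complex.conj_ofReal, smul_add,
    smul_add]

lemma norm_fld_le (f : K) (S : K →L[ℂ] K) : ‖𝓕.fld f S‖ ≤ 2 * ‖f‖ + ‖S‖ := by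
  calc ‖𝓕.fld f S‖ ≤ ‖𝓕.cr f‖ + ‖star (𝓕.cr f)‖ + ‖𝓕.lam S‖ := norm_add₃_le
    _ ≤ ‖f‖ + ‖f‖ + ‖S‖ := by
      gcongr
      · exact 𝓕.norm_cr_le f
      · exact 𝓕.norm_star_cr_le f
      · exact 𝓕.norm_lam_le S
    _ = _ := by ring

lemma lam_nonneg {S : K →L[ℂ] K} (hS : 0 ≤ S) : 0 ≤ 𝓕.lam S := by
  obtain ⟨b, hb⟩ := CStarAlgebra.nonneg_iff_eq_star_mul_self.1 hS
  rw [hb, lam_mul, ← star_lam]
  exact star_mul_self_nonneg _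

lemma fld_lower (f : K) {S : K →L[ℂ] K} (hS : 0 ≤ S) :
    0 ≤ 𝓕.fld f S + ((2 * ‖f‖ : ℝ) : ℂ) • (1 : F →L[ℂ] F) := by
  have h1 : IsSelfAdjoint (𝓕.cr f + star (𝓕.cr f)) := by
    rw [isSelfAdjoint_iff, star_add, star_star, add_comm]
  have h2 := h1.neg_algebraMap_norm_le_self
  have h3 : ‖𝓕.cr f + star (𝓕.cr f)‖ ≤ 2 * ‖f‖ :=
    calc ‖𝓕.cr f + star (𝓕.cr f)‖ ≤ ‖𝓕.cr f‖ + ‖star (𝓕.cr f)‖ := norm_add_le _ _
      _ ≤ ‖f‖ + ‖f‖ := add_le_add (𝓕.norm_cr_le f) (𝓕.norm_star_cr_le f)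
      _ = _ := by ring
  have h4 : algebraMap ℝ (F →L[ℂ] F) ‖𝓕.cr f + star (𝓕.cr f)‖ ≤
      ((2 * ‖f‖ : ℝ) : ℂ) • (1 : F →L[ℂ] F) := by
    rw [Complex.coe_smul, ← Algebra.algebraMap_eq_smul_one]
    exact algebraMap_mono _ h3
  have h5 := 𝓕.lam_nonneg hS
  rw [fld]
  have h6 : 0 ≤ (𝓕.cr f + star (𝓕.cr f)) + ((2 * ‖f‖ : ℝ) : ℂ) • (1 : F →L[ℂ] F) := by
    have := neg_le_iff_add_nonneg.1 h2
    exact this.trans (by gcongr)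
  have h7 := add_nonneg h6 h5
  refine h7.trans (le_of_eq ?_)
  abel

lemma fld_pos {f g : K} {S T : K →L[ℂ] K} (hT : star T = T) (h1 : T * T = S) (h2 : T g = f) :
    0 ≤ 𝓕.fld f S + ((‖g‖ ^ 2 : ℝ) : ℂ) • (1 : F →L[ℂ] F) := by
  have h3 : star (𝓕.cr g) * 𝓕.cr g = ((‖g‖ ^ 2 : ℝ) : ℂ) • (1 : F →L[ℂ] F) := by
    ext ξ
    rw [mul_apply_eq_comp, star_cr_cr, inner_self_ofReal]
    rfl
  have h4 : 𝓕.lam T * 𝓕.cr g = 𝓕.cr f := by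
    ext ξ
    rw [mul_apply_eq_comp, lam_cr, h2]
  have h5 : star (𝓕.lam T) = 𝓕.lam T := by rw [star_lam, hT]
  have h6 : star (𝓕.lam T + 𝓕.cr g) * (𝓕.lam T + 𝓕.cr g) =
      𝓕.fld f S + ((‖g‖ ^ 2 : ℝ) : ℂ) • (1 : F →L[ℂ] F) := by
    rw [star_add, add_mul, mul_add, mul_add, h3, h5, h4, ← lam_mul, h1, fld]
    have h7 : star (𝓕.cr g) * 𝓕.lam T = star (𝓕.cr f) := by
      rw [← h4, star_mul, h5]
    rw [h7]
    abel
  rw [← h6]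
  exact star_mul_self_nonneg _

lemma fld_fourth (f : K) (S : K →L[ℂ] K) :
    ‖𝓕.fld f S (𝓕.fld f S 𝓕.vac)‖ ^ 2 = 2 * (‖f‖ ^ 2) ^ 2 + ‖S f‖ ^ 2 := by
  have h1 : 𝓕.fld f S (𝓕.fld f S 𝓕.vac) =
      𝓕.cr f (𝓕.cr f 𝓕.vac) + (((‖f‖ ^ 2 : ℝ) : ℂ) • 𝓕.vac + 𝓕.cr (S f) 𝓕.vac) := by
    rw [fld_vac, fld_cr, inner_self_ofReal, add_assoc]
  have h2 : ⟪𝓕.cr f (𝓕.cr f 𝓕.vac), ((‖f‖ ^ 2 : ℝ) : ℂ) • 𝓕.vac + 𝓕.cr (S f) 𝓕.vac⟫_ℂ = 0 := by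
    rw [inner_add_right, inner_smul_right, 𝓕.inner_cr_vac, 𝓕.inner_cr, 𝓕.inner_cr_vac]
    simp
  have h3 : ⟪((‖f‖ ^ 2 : ℝ) : ℂ) • 𝓕.vac, 𝓕.cr (S f) 𝓕.vac⟫_ℂ = 0 := by
    rw [inner_smul_left, 𝓕.inner_vac_cr, mul_zero]
  have h4 := norm_add_sq_eq_norm_sq_add_norm_sq_of_inner_eq_zero _ _ h2
  have h5 := norm_add_sq_eq_norm_sq_add_norm_sq_of_inner_eq_zero _ _ h3
  rw [h1, pow_two, h4, h5, 𝓕.norm_cr_apply, 𝓕.norm_cr_apply, 𝓕.norm_cr_apply, norm_smul,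
    𝓕.norm_vac]
  simp only [Complex.norm_real, norm_pow, norm_norm, mul_one]
  ring

/-! ### flow -/

lemma gam_star_cr (U : K →ₗᵢ[ℂ] K) (h : K) (ξ : F) :
    𝓕.gam U (star (𝓕.cr h) ξ) = star (𝓕.cr (U h)) (𝓕.gam U ξ) :=
  𝓕.ext' (A := (𝓕.gam U).toContinuousLinearMap.comp (star (𝓕.cr h)))
    (B := (star (𝓕.cr (U h))).comp (𝓕.gam U).toContinuousLinearMap)
    (fun L => by
      change 𝓕.gam U (star (𝓕.cr h) (𝓕.el L)) = star (𝓕.cr (U h)) (𝓕.gam U (𝓕.el L))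
      rw [gam_el]
      cases L with
      | nil => simp
      | cons g L =>
        rw [List.map_cons, el_cons, el_cons, star_cr_cr, star_cr_cr, map_smul, gam_el,
          U.inner_map_map]) ξ

lemma gam_lam (U : K →ₗᵢ[ℂ] K) {S T : K →L[ℂ] K} (hST : ∀ h, U (S h) = T (U h)) (ξ : F) :
    𝓕.gam U (𝓕.lam S ξ) = 𝓕.lam T (𝓕.gam U ξ) :=
  𝓕.ext' (A := (𝓕.gam U).toContinuousLinearMap.comp (𝓕.lam S))
    (B := (𝓕.lam T).comp (𝓕.gam U).toContinuousLinearMap)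
    (fun L => by
      change 𝓕.gam U (𝓕.lam S (𝓕.el L)) = 𝓕.lam T (𝓕.gam U (𝓕.el L))
      rw [gam_el]
      cases L with
      | nil => simp
      | cons g L =>
        rw [List.map_cons, el_cons, el_cons, lam_cr, lam_cr, gam_cr, gam_el, hST]) ξ

lemma gam_fld (U : K →ₗᵢ[ℂ] K) {f : K} {S T : K →L[ℂ] K} (hST : ∀ h, U (S h) = T (U h)) (ξ : F) :
    𝓕.gam U (𝓕.fld f S ξ) = 𝓕.fld (U f) T (𝓕.gam U ξ) := by
  rw [fld_apply, fld_apply, map_add, map_add, gam_cr, gam_star_cr, 𝓕.gam_lam U hST]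

lemma gam_conj_fld (U : K →ₗᵢ[ℂ] K) {f : K} {S T : K →L[ℂ] K} (hST : ∀ h, U (S h) = T (U h))
    (ξ : F) :
    𝓕.gam U (𝓕.conj (𝓕.fld f S) ξ) = 𝓕.conj (𝓕.fld (U f) T) (𝓕.gam U ξ) := by
  rw [conj_apply, conj_apply, gam_flip, 𝓕.gam_fld U hST, gam_flip]

lemma continuous_cr_apply {Y : Type*} [TopologicalSpace Y] {h : Y → K} {ξ : Y → F}
    (hh : Continuous h) (hξ : Continuous ξ) : Continuous fun y => 𝓕.cr (h y) (ξ y) := by
  have h1 : Continuous (𝓕.cr.mkContinuous 1 fun h => by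
      rw [one_mul]; exact 𝓕.norm_cr_le h : K →L[ℂ] F →L[ℂ] F) := ContinuousLinearMap.continuous _
  exact (h1.comp hh).clm_apply hξ

lemma continuous_gam {Y : Type*} [TopologicalSpace Y] {U : Y → K →ₗᵢ[ℂ] K}
    (hU : ∀ h, Continuous fun y => U y h) (ξ : F) : Continuous fun y => 𝓕.gam (U y) ξ := by
  have h0 : ∀ L : List K, Continuous fun y => 𝓕.el (L.map (U y)) := by
    intro L
    induction L with
    | nil => exact continuous_const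
    | cons h L ih => exact 𝓕.continuous_cr_apply (hU h) ih
  have h1 : ∀ ξ ∈ Submodule.span ℂ (Set.range 𝓕.el), Continuous fun y => 𝓕.gam (U y) ξ := by
    intro ξ hξ
    induction hξ using Submodule.span_induction with
    | mem x hx =>
      obtain ⟨L, rfl⟩ := hx
      simpa using h0 L
    | zero => simpa using continuous_const
    | add x z _ _ h1 h2 =>
      simp only [map_add]
      exact h1.add h2
    | smul c x _ h1 =>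
      simp only [map_smul]
      exact h1.const_smul c
  refine continuous_of_uniform_approx_of_continuous fun u hu => ?_
  obtain ⟨ε, hε, hεu⟩ := Metric.mem_uniformity_dist.1 hu
  have hd : Dense (Submodule.span ℂ (Set.range 𝓕.el) : Set F) :=
    Submodule.dense_iff_topologicalClosure_eq_top.2 𝓕.dense_el
  obtain ⟨η, hη, hη2⟩ := hd.exists_dist_lt ξ hε
  refine ⟨fun y => 𝓕.gam (U y) η, h1 η hη, fun y => hεu ?_⟩
  rw [(𝓕.gam (U y)).dist_map]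
  exact hη2

end Fock

section Main

variable {Z F : Type*} [MeasurableSpace Z] {ν : Measure Z}
  [NormedAddCommGroup F] [InnerProductSpace ℂ F] [CompleteSpace F] (𝓕 : Fock (Lp ℂ 2 ν) F)

open Classical in
/-- the free Poisson field -/
noncomputable def fX (f : Z → ℝ) : F →L[ℂ] F :=
  if h : MemLp f 2 ν ∧ MemLp f ∞ ν then 𝓕.fi (l2mult ν) ⟨f, h⟩ else 0

lemma fX_eq {f : Z → ℝ} (h2 : MemLp f 2 ν) (ht : MemLp f ∞ ν) :
    fX 𝓕 f = 𝓕.fld (rv ⟨f, h2, ht⟩) (rm ⟨f, h2, ht⟩) := by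
  rw [fX, dif_pos ⟨h2, ht⟩]; rfl

lemma fX_eq' {f : Z → ℝ} (h2 : MemLp f 2 ν) (ht : MemLp f ∞ ν) :
    fX 𝓕 f = 𝓕.fi (l2mult ν) ⟨f, h2, ht⟩ := by
  rw [fX, dif_pos ⟨h2, ht⟩]

lemma rm_congr {f g : RF ν} (h : f.1 =ᵐ[ν] g.1) : rm f = rm g := by
  ext1 ξ
  refine Lp.ext ?_
  filter_upwards [coe_rm f ξ, coe_rm g ξ, h] with z h1 h2 h3
  rw [h1, h2, h3]

lemma rv_congr {f g : RF ν} (h : f.1 =ᵐ[ν] g.1) : rv f = rv g := by
  refine Lp.ext ?_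
  filter_upwards [coe_rv f, coe_rv g, h] with z h1 h2 h3
  rw [h1, h2, h3]

lemma norm_rv_sq (f : RF ν) : ‖rv f‖ ^ 2 = ∫ z, f.1 z ^ 2 ∂ν := by
  have h1 := inner_rv_rv f f
  rw [inner_self_ofReal] at h1
  have h2 : ‖rv f‖ ^ 2 = ∫ z, f.1 z * f.1 z ∂ν := by exact_mod_cast h1
  rw [h2]
  simp only [pow_two]

lemma rm_nonneg {f : RF ν} (h : 0 ≤ᵐ[ν] f.1) : 0 ≤ rm f := by
  rw [ContinuousLinearMap.nonneg_iff_isPositive, ContinuousLinearMap.isPositive_def]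
  constructor
  · have h1 : IsSelfAdjoint (rm f) := star_rm f
    exact h1.isSymmetric
  · intro g
    rw [ContinuousLinearMap.reApplyInnerSelf_apply, l2_inner_def]
    have h2 : ∫ z, ⟪(rm f g) z, g z⟫_ℂ ∂ν = ((∫ z, f.1 z * ‖g z‖ ^ 2 ∂ν : ℝ) : ℂ) := by
      rw [← integral_complex_ofReal]
      refine integral_congr_ae ?_
      filter_upwards [coe_rm f g] with z h1
      rw [h1]
      simp only [RCLike.inner_apply, map_mul, Complex.conj_ofReal, Complex.ofReal_mul,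
        Complex.ofReal_pow]
      rw [mul_left_comm, Complex.mul_conj, Complex.normSq_eq_norm_sq, Complex.ofReal_pow]
    rw [h2]
    change 0 ≤ (((∫ z, f.1 z * ‖g z‖ ^ 2 ∂ν : ℝ) : ℂ)).re
    rw [Complex.ofReal_re]
    refine integral_nonneg_of_ae ?_
    filter_upwards [h] with z hz
    exact mul_nonneg hz (by positivity)

lemma fX_congr {f g : Z → ℝ} (h : f =ᵐ[ν] g) : fX 𝓕 f = fX 𝓕 g := by
  by_cases hf : MemLp f 2 ν ∧ MemLp f ∞ ν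
  · have hg : MemLp g 2 ν ∧ MemLp g ∞ ν := ⟨hf.1.ae_eq h, hf.2.ae_eq h⟩
    rw [fX_eq 𝓕 hf.1 hf.2, fX_eq 𝓕 hg.1 hg.2]
    exact 𝓕.fld_congr (rv_congr h) (rm_congr h)
  · have hg : ¬ (MemLp g 2 ν ∧ MemLp g ∞ ν) :=
      fun hg => hf ⟨hg.1.ae_eq h.symm, hg.2.ae_eq h.symm⟩
    rw [fX, fX, dif_neg hf, dif_neg hg]

lemma memLp_sqrt {f : Z → ℝ} (ht : MemLp f ∞ ν) (hi : Integrable f ν) (h0 : 0 ≤ᵐ[ν] f) :
    MemLp (fun z => √(f z)) 2 ν ∧ MemLp (fun z => √(f z)) ∞ ν := by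
  have hm : AEStronglyMeasurable (fun z => √(f z)) ν :=
    Real.continuous_sqrt.comp_aestronglyMeasurable hi.1
  constructor
  · rw [memLp_two_iff_integrable_sq hm]
    refine hi.congr ?_
    filter_upwards [h0] with z hz
    rw [Real.sq_sqrt hz]
  · refine memLp_top_of_bound hm √(eLpNorm f ∞ ν).toReal ?_
    have h1 : ∀ᵐ z ∂ν, ‖f z‖ₑ ≤ eLpNorm f ∞ ν := by
      rw [eLpNorm_exponent_top]; exact ae_le_eLpNormEssSup
    filter_upwards [h1, h0] with z hz hz0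
    rw [Real.norm_of_nonneg (Real.sqrt_nonneg _)]
    refine Real.sqrt_le_sqrt ?_
    have h2 := ENNReal.toReal_mono ht.2.ne hz
    rwa [toReal_enorm, Real.norm_of_nonneg hz0] at h2

theorem freePoisson (hν : ν ≠ 0) :
    FreePoisson ν (𝓕.alg (l2mult ν)) 𝓕.vac 𝓕.emb (fX 𝓕) where
  isTrace := 𝓕.isTraceVector _
  emb_orth F := 𝓕.inner_vac_cr _ _
  mem f h2 ht := by
    rw [fX_eq' 𝓕 h2 ht]
    exact 𝓕.fi_mem _ _
  selfAdjoint f h2 ht := by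
    rw [fX_eq' 𝓕 h2 ht]
    exact 𝓕.star_fi _ _
  congr f g h := fX_congr 𝓕 h
  add f g hf2 hft hg2 hgt := by
    rw [fX_eq 𝓕 hf2 hft, fX_eq 𝓕 hg2 hgt, fX_eq 𝓕 (hf2.add hg2) (hft.add hgt), ← 𝓕.fld_add]
    refine 𝓕.fld_congr ?_ ?_
    · refine Lp.ext ?_
      filter_upwards [coe_rv ⟨f + g, hf2.add hg2, hft.add hgt⟩, coe_rv ⟨f, hf2, hft⟩,
        coe_rv ⟨g, hg2, hgt⟩, Lp.coeFn_add (rv ⟨f, hf2, hft⟩) (rv ⟨g, hg2, hgt⟩)] with z h1 h2 h3 h4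
      rw [h4, Pi.add_apply, h2, h3, h1]
      simp
    · ext1 ξ
      refine Lp.ext ?_
      rw [add_apply]
      filter_upwards [coe_rm ⟨f + g, hf2.add hg2, hft.add hgt⟩ ξ, coe_rm ⟨f, hf2, hft⟩ ξ,
        coe_rm ⟨g, hg2, hgt⟩ ξ, Lp.coeFn_add (rm ⟨f, hf2, hft⟩ ξ) (rm ⟨g, hg2, hgt⟩ ξ)]
        with z h1 h2 h3 h4
      rw [h4, Pi.add_apply, h2, h3, h1]
      simp [add_mul]
  smul r f h2 ht := by
    rw [fX_eq 𝓕 h2 ht, fX_eq 𝓕 (h2.const_smul r) (ht.const_smul r), ← 𝓕.fld_smul]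
    refine 𝓕.fld_congr ?_ ?_
    · refine Lp.ext ?_
      filter_upwards [coe_rv ⟨r • f, h2.const_smul r, ht.const_smul r⟩, coe_rv ⟨f, h2, ht⟩,
        Lp.coeFn_smul (r : ℂ) (rv ⟨f, h2, ht⟩)] with z h1 h2 h3
      rw [h3, Pi.smul_apply, h2, h1]
      simp
    · ext1 ξ
      refine Lp.ext ?_
      rw [smul_apply]
      filter_upwards [coe_rm ⟨r • f, h2.const_smul r, ht.const_smul r⟩ ξ, coe_rm ⟨f, h2, ht⟩ ξ,
        Lp.coeFn_smul (r : ℂ) (rm ⟨f, h2, ht⟩ ξ)] with z h1 h2 h3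
      rw [h3, Pi.smul_apply, h2, h1]
      simp [mul_assoc]
  vacuum f h2 ht := by
    rw [fX_eq 𝓕 h2 ht, 𝓕.fld_vac]
    rfl
  fourth f h2 ht := by
    rw [fX_eq 𝓕 h2 ht, 𝓕.fld_fourth, norm_rv_sq, rm_rv, norm_rv_sq]
    congr 1
    refine integral_congr_ae (Filter.Eventually.of_forall fun z => ?_)
    simp only [rmul]
    ring
  pos f h2 ht hi h0 := by
    obtain ⟨hs2, hst⟩ := memLp_sqrt ht hi h0
    have h1 : ‖rv (⟨_, hs2, hst⟩ : RF ν)‖ ^ 2 = ∫ z, f z ∂ν := by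
      rw [norm_rv_sq]
      refine integral_congr_ae ?_
      filter_upwards [h0] with z hz
      rw [Real.sq_sqrt hz]
    rw [fX_eq 𝓕 h2 ht, ← h1]
    refine 𝓕.fld_pos (T := rm ⟨_, hs2, hst⟩) (star_rm _) ?_ ?_
    · ext1 ξ
      refine Lp.ext ?_
      rw [mul_apply_eq_comp]
      filter_upwards [coe_rm (⟨_, hs2, hst⟩ : RF ν) (rm (⟨_, hs2, hst⟩ : RF ν) ξ),
        coe_rm (⟨_, hs2, hst⟩ : RF ν) ξ, coe_rm ⟨f, h2, ht⟩ ξ, h0] with z e1 e2 e3 e4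
      rw [e1, e2, e3, ← mul_assoc, ← Complex.ofReal_mul, Real.mul_self_sqrt e4]
    · rw [rm_rv]
      refine rv_congr ?_
      filter_upwards [h0] with z hz
      exact Real.mul_self_sqrt hz
  lower f h2 ht h0 := by
    have h1 : √(∫ z, f z ^ 2 ∂ν) = ‖rv (⟨f, h2, ht⟩ : RF ν)‖ := by
      rw [← norm_rv_sq (⟨f, h2, ht⟩ : RF ν), Real.sqrt_sq (norm_nonneg _)]
    rw [fX_eq 𝓕 h2 ht, h1]
    exact 𝓕.fld_lower _ (rm_nonneg h0)
  upper f C h2 hC := by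
    have hC0 : 0 ≤ C := by
      have : (ae ν).NeBot := ae_neBot.2 hν
      obtain ⟨z, hz⟩ := hC.exists
      exact (abs_nonneg _).trans hz
    have ht : MemLp f ∞ ν := memLp_top_of_bound h2.1 C (by simpa using hC)
    have h1 : √(∫ z, f z ^ 2 ∂ν) = ‖rv (⟨f, h2, ht⟩ : RF ν)‖ := by
      rw [← norm_rv_sq (⟨f, h2, ht⟩ : RF ν), Real.sqrt_sq (norm_nonneg _)]
    rw [fX_eq 𝓕 h2 ht, h1]
    exact (𝓕.norm_fld_le _ _).trans (add_le_add_right (norm_rm_le _ hC0 hC) _)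

end Main

end Pool.Agent.H20.FP
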