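import Mathlib

/-!
# The full Fock space: a concrete model on `ℓ²` of the words over an index set

`tens h ξ` is the tensor `h ⊗ ξ`, as a function on words.
-/

open scoped InnerProductSpace ENNReal

namespace Pool.Agent.H20.FP

/-- Data of a full Fock space over `K`: a vacuum vector, creation operators, and totality of the
elementary tensors. -/
structure Fock (K F : Type*) [NormedAddCommGroup K] [InnerProductSpace ℂ K]
    [NormedAddCommGroup F] [InnerProductSpace ℂ F] where
  /-- the vacuum -/
  vac : F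
  /-- the creation operators -/
  cr : K →ₗ[ℂ] F →L[ℂ] F
  norm_vac : ‖vac‖ = 1
  inner_cr : ∀ g h ξ η, ⟪cr g ξ, cr h η⟫_ℂ = ⟪g, h⟫_ℂ * ⟪ξ, η⟫_ℂ
  inner_vac_cr : ∀ h ξ, ⟪vac, cr h ξ⟫_ℂ = 0
  total : ∀ S : Submodule ℂ F, IsClosed (S : Set F) → vac ∈ S →
    (∀ h, ∀ ξ ∈ S, cr h ξ ∈ S) → S = ⊤

section Model

variable {I : Type*}

/-- the map `(i, w) ↦ i :: w` -/
def consMap (p : I × List I) : List I := p.1 :: p.2

lemma consMap_injective : Function.Injective (consMap (I := I)) := by
  rintro ⟨i, w⟩ ⟨j, v⟩ h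
  simp only [consMap, List.cons.injEq] at h
  exact Prod.ext h.1 h.2

/-- the tensor `h ⊗ ξ` as a function on words -/
def tens (h : I → ℂ) (ξ : List I → ℂ) : List I → ℂ
  | [] => 0
  | i :: w => h i * ξ w

@[simp] lemma tens_nil (h : I → ℂ) (ξ : List I → ℂ) : tens h ξ [] = 0 := rfl
@[simp] lemma tens_cons (h : I → ℂ) (ξ : List I → ℂ) (i : I) (w : List I) :
    tens h ξ (i :: w) = h i * ξ w := rfl

lemma memlp_tens {h : I → ℂ} {ξ : List I → ℂ} (hh : Memℓp h 2) (hξ : Memℓp ξ 2) :
    Memℓp (tens h ξ) 2 := by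
  rw [memℓp_gen_iff (by norm_num)] at hh hξ ⊢
  simp only [ENNReal.toReal_ofNat, Real.rpow_ofNat] at hh hξ ⊢
  have h1 : Summable (fun p : I × List I => ‖h p.1‖ ^ 2 * ‖ξ p.2‖ ^ 2) :=
    hh.mul_of_nonneg hξ (fun _ => by positivity) (fun _ => by positivity)
  rw [← consMap_injective.summable_iff (f := fun w => ‖tens h ξ w‖ ^ 2)]
  · refine h1.congr fun p => ?_
    simp [consMap, mul_pow]
  · intro w hw
    cases w with
    | nil => simp
    | cons i w => exact absurd ⟨(i, w), rfl⟩ hw

lemma hasSum_tens {g h : I → ℂ} {ξ η : List I → ℂ} {a b : ℂ}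
    (ha : HasSum (fun i => ⟪g i, h i⟫_ℂ) a) (hb : HasSum (fun w => ⟪ξ w, η w⟫_ℂ) b) :
    HasSum (fun w => ⟪tens g ξ w, tens h η w⟫_ℂ) (a * b) := by
  have h1 : HasSum (fun p : I × List I => ⟪g p.1, h p.1⟫_ℂ * ⟪ξ p.2, η p.2⟫_ℂ) (a * b) :=
    HasSum.mul (f := fun i => ⟪g i, h i⟫_ℂ) (g := fun w => ⟪ξ w, η w⟫_ℂ) ha hb
      (summable_mul_of_summable_norm (f := fun i => ⟪g i, h i⟫_ℂ) (g := fun w => ⟪ξ w, η w⟫_ℂ)
      ha.summable.norm hb.summable.norm)
  rw [← consMap_injective.hasSum_iff (f := fun w => ⟪tens g ξ w, tens h η w⟫_ℂ)]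
  · convert! h1 using 2 with p
    simp only [Function.comp, consMap, tens_cons, RCLike.inner_apply, map_mul]
    ring
  · intro w hw
    cases w with
    | nil => simp
    | cons i w => exact absurd ⟨(i, w), rfl⟩ hw

variable {K : Type*} [NormedAddCommGroup K] [InnerProductSpace ℂ K]

/-- the space `ℓ²` of the words -/
noncomputable abbrev Words (I : Type*) := lp (fun _ : List I => ℂ) 2

/-- the creation operator as a linear map -/
noncomputable def creₗ (b : HilbertBasis I ℂ K) (h : K) : Words I →ₗ[ℂ] Words I where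
  toFun ξ := ⟨tens (b.repr h) ξ, memlp_tens (lp.memℓp _) (lp.memℓp _)⟩
  map_add' ξ η := by
    ext w
    cases w with
    | nil => simp
    | cons i w => simp [mul_add]
  map_smul' c ξ := by
    ext w
    cases w with
    | nil => simp
    | cons i w => simp [mul_left_comm]

@[simp] lemma creₗ_nil (b : HilbertBasis I ℂ K) (h : K) (ξ : Words I) :
    creₗ b h ξ [] = 0 := rfl

@[simp] lemma creₗ_cons (b : HilbertBasis I ℂ K) (h : K) (ξ : Words I) (i : I) (w : List I) :
    creₗ b h ξ (i :: w) = b.repr h i * ξ w := rfl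

lemma inner_creₗ (b : HilbertBasis I ℂ K) (g h : K) (ξ η : Words I) :
    ⟪creₗ b g ξ, creₗ b h η⟫_ℂ = ⟪g, h⟫_ℂ * ⟪ξ, η⟫_ℂ := by
  have h1 := hasSum_tens (lp.hasSum_inner (b.repr g) (b.repr h)) (lp.hasSum_inner ξ η)
  rw [b.repr.inner_map_map] at h1
  exact (lp.hasSum_inner (creₗ b g ξ) (creₗ b h η)).unique h1

lemma norm_creₗ (b : HilbertBasis I ℂ K) (h : K) (ξ : Words I) :
    ‖creₗ b h ξ‖ = ‖h‖ * ‖ξ‖ := by
  have h1 := inner_creₗ b h h ξ ξ
  rw [inner_self_eq_norm_sq_to_K, inner_self_eq_norm_sq_to_K, inner_self_eq_norm_sq_to_K] at h1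
  have h2 : ‖creₗ b h ξ‖ ^ 2 = (‖h‖ * ‖ξ‖) ^ 2 := by
    have : ((‖creₗ b h ξ‖ ^ 2 : ℝ) : ℂ) = (((‖h‖ * ‖ξ‖) ^ 2 : ℝ) : ℂ) := by
      push_cast
      rw [mul_pow]
      exact h1
    exact_mod_cast this
  exact (pow_left_inj₀ (norm_nonneg _) (by positivity) two_ne_zero).1 h2

/-- the model of the full Fock space on the words -/
noncomputable def model (b : HilbertBasis I ℂ K) : Fock K (Words I) := by
  classical
  exact
  { vac := lp.single 2 [] 1
    cr :=
      { toFun := fun h => (creₗ b h).mkContinuous ‖h‖ (fun ξ => (norm_creₗ b h ξ).le)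
        map_add' := fun g h => by
          ext ξ w
          cases w with
          | nil => simp
          | cons i w => simp [add_mul]
        map_smul' := fun c h => by
          ext ξ w
          cases w with
          | nil => simp
          | cons i w => simp [mul_assoc] }
    norm_vac := by simp [lp.norm_single]
    inner_cr := fun g h ξ η => inner_creₗ b g h ξ η
    inner_vac_cr := fun h ξ => by simp [lp.inner_single_left]
    total := fun S hS hv hc => by
      have h1 : ∀ w : List I, (lp.single 2 w 1 : Words I) ∈ S := by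
        intro w
        induction w with
        | nil => exact hv
        | cons i w ih =>
          have h2 := hc (b i) _ ih
          have h3 : creₗ b (b i) (lp.single 2 w 1 : Words I) = lp.single 2 (i :: w) 1 := by
            ext v
            cases v with
            | nil => simp
            | cons j v =>
              rw [creₗ_cons, b.repr_self, lp.single_apply, lp.single_apply, lp.single_apply]
              by_cases hij : j = i
              · subst hij
                by_cases hv : v = w
                · subst hv; simp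
                · simp [Pi.single_apply, hv]
              · simp [Pi.single_apply, hij]
          rw [← h3]
          exact h2
      rw [eq_top_iff]
      intro ξ _
      have h4 := lp.hasSum_single (p := 2) (by norm_num) ξ
      refine hS.mem_of_tendsto h4 (Filter.Eventually.of_forall fun A => ?_)
      refine S.sum_mem fun w _ => ?_
      have h5 : (lp.single 2 w (ξ w) : Words I) = (ξ w) • lp.single 2 w 1 := by
        rw [← lp.single_smul]; simp
      rw [h5]
      exact S.smul_mem _ (h1 w) }

end Model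

end Pool.Agent.H20.FP
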