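import Pool.Agent.H20.FP.Basic

/-!
# Operators on a full Fock space: `Λ(T)`, flip, second quantisation, commutation
-/

open scoped InnerProductSpace ENNReal

set_option linter.unusedSectionVars false

namespace Pool.Agent.H20.FP

variable {K F : Type*} [NormedAddCommGroup K] [InnerProductSpace ℂ K] [CompleteSpace K]
  [NormedAddCommGroup F] [InnerProductSpace ℂ F] [CompleteSpace F]

namespace Fock

/-- linear extension of an identity from elementary tensors -/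
lemma ext' {G : Type*} [NormedAddCommGroup G] [InnerProductSpace ℂ G] [CompleteSpace G]
    (𝓕 : Fock K F) {A B : F →L[ℂ] G} (h : ∀ L, A (𝓕.el L) = B (𝓕.el L)) (ξ : F) : A ξ = B ξ := by
  rw [𝓕.ext h]

/-- `Λ(T)` -/
noncomputable def lam (𝓕 : Fock K F) (T : K →L[ℂ] K) : F →L[ℂ] F := (𝓕.exists_lam T).choose

@[simp] lemma lam_vac (𝓕 : Fock K F) (T : K →L[ℂ] K) : 𝓕.lam T 𝓕.vac = 0 := by
  have h : 𝓕.lam T (𝓕.el []) = 𝓕.cr (T (hd [])) (𝓕.el [].tail) :=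
    (𝓕.exists_lam T).choose_spec.1 []
  rw [el_nil] at h
  rw [h]
  simp [hd]

@[simp] lemma lam_cr (𝓕 : Fock K F) (T : K →L[ℂ] K) (h : K) (ξ : F) :
    𝓕.lam T (𝓕.cr h ξ) = 𝓕.cr (T h) ξ :=
  𝓕.ext' (A := (𝓕.lam T).comp (𝓕.cr h)) (B := 𝓕.cr (T h))
    (fun L => (𝓕.exists_lam T).choose_spec.1 (h :: L)) ξ

lemma norm_lam_le (𝓕 : Fock K F) (T : K →L[ℂ] K) : ‖𝓕.lam T‖ ≤ ‖T‖ :=
  (𝓕.exists_lam T).choose_spec.2

lemma lam_add (𝓕 : Fock K F) (S T : K →L[ℂ] K) : 𝓕.lam (S + T) = 𝓕.lam S + 𝓕.lam T := by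
  refine 𝓕.ext fun L => ?_
  cases L with
  | nil => simp
  | cons h L => simp

lemma lam_smul (𝓕 : Fock K F) (c : ℂ) (T : K →L[ℂ] K) : 𝓕.lam (c • T) = c • 𝓕.lam T := by
  refine 𝓕.ext fun L => ?_
  cases L with
  | nil => simp
  | cons h L => simp

lemma lam_mul (𝓕 : Fock K F) (S T : K →L[ℂ] K) : 𝓕.lam (S * T) = 𝓕.lam S * 𝓕.lam T := by
  refine 𝓕.ext fun L => ?_
  cases L with
  | nil => simp
  | cons h L => simp

/-- to check an identity of inner products it is enough to do so on elementary tensors -/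
lemma inner_ext (𝓕 : Fock K F) {A B : F →L[ℂ] F}
    (h : ∀ L L', ⟪A (𝓕.el L), 𝓕.el L'⟫_ℂ = ⟪𝓕.el L, B (𝓕.el L')⟫_ℂ) : star B = A := by
  refine 𝓕.ext fun L => ?_
  refine ext_inner_right ℂ fun ξ => ?_
  have h1 : innerSL ℂ (star B (𝓕.el L)) = innerSL ℂ (A (𝓕.el L)) := by
    refine 𝓕.ext (G := ℂ) fun L' => ?_
    simp only [innerSL_apply_apply]
    rw [ContinuousLinearMap.star_eq_adjoint, ContinuousLinearMap.adjoint_inner_left, h]
  exact DFunLike.congr_fun h1 ξ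

lemma star_lam (𝓕 : Fock K F) (T : K →L[ℂ] K) : star (𝓕.lam T) = 𝓕.lam (star T) := by
  refine 𝓕.inner_ext fun L L' => ?_
  cases L with
  | nil =>
    cases L' with
    | nil => simp
    | cons h L' => simp [𝓕.inner_vac_cr]
  | cons g L =>
    cases L' with
    | nil => simp [𝓕.inner_cr_vac]
    | cons h L' =>
      simp only [el_cons, lam_cr, 𝓕.inner_cr]
      rw [ContinuousLinearMap.star_eq_adjoint, ContinuousLinearMap.adjoint_inner_left]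

@[simp] lemma star_cr_vac (𝓕 : Fock K F) (g : K) : star (𝓕.cr g) 𝓕.vac = 0 := by
  refine ext_inner_right ℂ fun ξ => ?_
  rw [ContinuousLinearMap.star_eq_adjoint, ContinuousLinearMap.adjoint_inner_left,
    𝓕.inner_vac_cr, inner_zero_left]

@[simp] lemma star_cr_cr (𝓕 : Fock K F) (g h : K) (ξ : F) :
    star (𝓕.cr g) (𝓕.cr h ξ) = ⟪g, h⟫_ℂ • ξ := by
  refine ext_inner_left ℂ fun η => ?_
  rw [ContinuousLinearMap.star_eq_adjoint, ContinuousLinearMap.adjoint_inner_right,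
    𝓕.inner_cr, inner_smul_right]

lemma norm_cr_apply (𝓕 : Fock K F) (h : K) (ξ : F) : ‖𝓕.cr h ξ‖ = ‖h‖ * ‖ξ‖ := by
  have h1 := 𝓕.inner_cr h h ξ ξ
  rw [inner_self_ofReal, inner_self_ofReal, inner_self_ofReal] at h1
  have h2 : ‖𝓕.cr h ξ‖ ^ 2 = (‖h‖ * ‖ξ‖) ^ 2 := by
    rw [mul_pow]; exact_mod_cast h1
  exact (pow_left_inj₀ (norm_nonneg _) (by positivity) two_ne_zero).1 h2

lemma norm_cr_le (𝓕 : Fock K F) (h : K) : ‖𝓕.cr h‖ ≤ ‖h‖ :=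
  ContinuousLinearMap.opNorm_le_bound _ (norm_nonneg _) fun ξ => (𝓕.norm_cr_apply h ξ).le

lemma norm_star_cr_le (𝓕 : Fock K F) (h : K) : ‖star (𝓕.cr h)‖ ≤ ‖h‖ := by
  rw [norm_star]; exact 𝓕.norm_cr_le h

/-! ### the flip -/

lemma gram_eq (L L' : List K) :
    gram L L' = if L.length = L'.length then (List.zipWith (fun g h => ⟪g, h⟫_ℂ) L L').prod
      else 0 := by
  induction L generalizing L' with
  | nil =>
    cases L' with
    | nil => simp [gram]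
    | cons h L' => simp [gram]
  | cons g L ih =>
    cases L' with
    | nil => simp [gram]
    | cons h L' =>
      rw [gram, ih]
      by_cases hl : L.length = L'.length
      · simp [hl]
      · simp [hl]

lemma gram_reverse (L L' : List K) : gram L.reverse L'.reverse = gram L L' := by
  rw [gram_eq, gram_eq]
  by_cases hl : L.length = L'.length
  · rw [if_pos (by simpa using hl), if_pos hl, ← List.reverse_zipWith hl, List.prod_reverse]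
  · rw [if_neg (by simpa using hl), if_neg hl]

lemma exists_flip (𝓕 : Fock K F) : ∃ A : F →ₗᵢ[ℂ] F, ∀ L, A (𝓕.el L) = 𝓕.el L.reverse :=
  exists_isometry 𝓕.dense_el _ fun L L' => by rw [𝓕.inner_el, 𝓕.inner_el, gram_reverse]

/-- the flip as an operator -/
noncomputable def flip (𝓕 : Fock K F) : F →L[ℂ] F := 𝓕.exists_flip.choose.toContinuousLinearMap

@[simp] lemma flip_el (𝓕 : Fock K F) (L : List K) : 𝓕.flip (𝓕.el L) = 𝓕.el L.reverse :=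
  𝓕.exists_flip.choose_spec L

@[simp] lemma flip_vac (𝓕 : Fock K F) : 𝓕.flip 𝓕.vac = 𝓕.vac := 𝓕.flip_el []

lemma flip_mul_flip (𝓕 : Fock K F) : 𝓕.flip * 𝓕.flip = 1 :=
  𝓕.ext fun L => by simp

@[simp] lemma flip_flip (𝓕 : Fock K F) (ξ : F) : 𝓕.flip (𝓕.flip ξ) = ξ :=
  DFunLike.congr_fun 𝓕.flip_mul_flip ξ

lemma norm_flip (𝓕 : Fock K F) (ξ : F) : ‖𝓕.flip ξ‖ = ‖ξ‖ := 𝓕.exists_flip.choose.norm_map ξ

lemma star_flip (𝓕 : Fock K F) : star 𝓕.flip = 𝓕.flip := by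
  refine 𝓕.inner_ext fun L L' => ?_
  rw [flip_el, flip_el, 𝓕.inner_el, 𝓕.inner_el, ← gram_reverse, List.reverse_reverse]

/-- conjugation by the flip -/
noncomputable def conj (𝓕 : Fock K F) (A : F →L[ℂ] F) : F →L[ℂ] F := 𝓕.flip * A * 𝓕.flip

lemma conj_apply (𝓕 : Fock K F) (A : F →L[ℂ] F) (ξ : F) :
    𝓕.conj A ξ = 𝓕.flip (A (𝓕.flip ξ)) := rfl

lemma conj_add (𝓕 : Fock K F) (A B : F →L[ℂ] F) : 𝓕.conj (A + B) = 𝓕.conj A + 𝓕.conj B := by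
  simp [conj, mul_add, add_mul]

lemma conj_mul (𝓕 : Fock K F) (A B : F →L[ℂ] F) : 𝓕.conj (A * B) = 𝓕.conj A * 𝓕.conj B := by
  ext ξ; simp [conj_apply]

lemma star_conj (𝓕 : Fock K F) (A : F →L[ℂ] F) : star (𝓕.conj A) = 𝓕.conj (star A) := by
  simp [conj, star_flip, mul_assoc]

/-! ### second quantisation -/

lemma gram_map (U : K →ₗᵢ[ℂ] K) (L L' : List K) : gram (L.map U) (L'.map U) = gram L L' := by
  rw [gram_eq, gram_eq]
  simp [List.zipWith_map]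

lemma exists_gam (𝓕 : Fock K F) (U : K →ₗᵢ[ℂ] K) :
    ∃ A : F →ₗᵢ[ℂ] F, ∀ L, A (𝓕.el L) = 𝓕.el (L.map U) :=
  exists_isometry 𝓕.dense_el _ fun L L' => by rw [𝓕.inner_el, 𝓕.inner_el, gram_map]

/-- second quantisation -/
noncomputable def gam (𝓕 : Fock K F) (U : K →ₗᵢ[ℂ] K) : F →ₗᵢ[ℂ] F := (𝓕.exists_gam U).choose

@[simp] lemma gam_el (𝓕 : Fock K F) (U : K →ₗᵢ[ℂ] K) (L : List K) :
    𝓕.gam U (𝓕.el L) = 𝓕.el (L.map U) := (𝓕.exists_gam U).choose_spec L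

@[simp] lemma gam_vac (𝓕 : Fock K F) (U : K →ₗᵢ[ℂ] K) :
    𝓕.gam U 𝓕.vac = 𝓕.vac := 𝓕.gam_el U []

lemma gam_cr (𝓕 : Fock K F) (U : K →ₗᵢ[ℂ] K) (h : K) (ξ : F) :
    𝓕.gam U (𝓕.cr h ξ) = 𝓕.cr (U h) (𝓕.gam U ξ) :=
  𝓕.ext' (A := (𝓕.gam U).toContinuousLinearMap.comp (𝓕.cr h))
    (B := (𝓕.cr (U h)).comp (𝓕.gam U).toContinuousLinearMap)
    (fun L => by
      change 𝓕.gam U (𝓕.el (h :: L)) = 𝓕.cr (U h) (𝓕.gam U (𝓕.el L))
      rw [gam_el, gam_el]; rfl) ξ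

lemma gam_gam (𝓕 : Fock K F) (U V : K →ₗᵢ[ℂ] K) (ξ : F) :
    𝓕.gam U (𝓕.gam V ξ) = 𝓕.gam (U.comp V) ξ :=
  𝓕.ext' (A := (𝓕.gam U).toContinuousLinearMap.comp (𝓕.gam V).toContinuousLinearMap)
    (B := (𝓕.gam (U.comp V)).toContinuousLinearMap)
    (fun L => by
      change 𝓕.gam U (𝓕.gam V (𝓕.el L)) = 𝓕.gam (U.comp V) (𝓕.el L)
      simp) ξ

lemma gam_id (𝓕 : Fock K F) (ξ : F) : 𝓕.gam LinearIsometry.id ξ = ξ :=
  𝓕.ext' (A := (𝓕.gam LinearIsometry.id).toContinuousLinearMap)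
    (B := ContinuousLinearMap.id ℂ F)
    (fun L => by
      change 𝓕.gam LinearIsometry.id (𝓕.el L) = 𝓕.el L
      simp) ξ

lemma gam_flip (𝓕 : Fock K F) (U : K →ₗᵢ[ℂ] K) (ξ : F) :
    𝓕.gam U (𝓕.flip ξ) = 𝓕.flip (𝓕.gam U ξ) :=
  𝓕.ext' (A := (𝓕.gam U).toContinuousLinearMap.comp 𝓕.flip)
    (B := 𝓕.flip.comp (𝓕.gam U).toContinuousLinearMap)
    (fun L => by
      change 𝓕.gam U (𝓕.flip (𝓕.el L)) = 𝓕.flip (𝓕.gam U (𝓕.el L))
      simp) ξ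

/-! ### the field operators -/

/-- `ℓ(f) + ℓ(f)* + Λ(T)` -/
noncomputable def fld (𝓕 : Fock K F) (f : K) (T : K →L[ℂ] K) : F →L[ℂ] F :=
  𝓕.cr f + star (𝓕.cr f) + 𝓕.lam T

lemma fld_apply (𝓕 : Fock K F) (f : K) (T : K →L[ℂ] K) (ξ : F) :
    𝓕.fld f T ξ = 𝓕.cr f ξ + star (𝓕.cr f) ξ + 𝓕.lam T ξ := rfl

@[simp] lemma fld_vac (𝓕 : Fock K F) (f : K) (T : K →L[ℂ] K) :
    𝓕.fld f T 𝓕.vac = 𝓕.cr f 𝓕.vac := by
  simp [fld_apply]

lemma fld_cr (𝓕 : Fock K F) (f : K) (T : K →L[ℂ] K) (h : K) (ξ : F) :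
    𝓕.fld f T (𝓕.cr h ξ) = 𝓕.cr f (𝓕.cr h ξ) + ⟪f, h⟫_ℂ • ξ + 𝓕.cr (T h) ξ := by
  simp [fld_apply]

lemma fld_el_cons (𝓕 : Fock K F) (f : K) (T : K →L[ℂ] K) (h : K) (L : List K) :
    𝓕.fld f T (𝓕.el (h :: L)) = 𝓕.el (f :: h :: L) + ⟪f, h⟫_ℂ • 𝓕.el L + 𝓕.el (T h :: L) :=
  𝓕.fld_cr f T h _

lemma fld_el_nil (𝓕 : Fock K F) (f : K) (T : K →L[ℂ] K) :
    𝓕.fld f T (𝓕.el []) = 𝓕.el [f] := 𝓕.fld_vac f T

lemma conj_fld_el_concat (𝓕 : Fock K F) (g : K) (S : K →L[ℂ] K) (h : K) (L : List K) :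
    𝓕.conj (𝓕.fld g S) (𝓕.el (L ++ [h])) =
      𝓕.el (L ++ [h] ++ [g]) + ⟪g, h⟫_ℂ • 𝓕.el L + 𝓕.el (L ++ [S h]) := by
  rw [conj_apply, flip_el, List.reverse_append, List.reverse_singleton, List.singleton_append,
    fld_el_cons, map_add, map_add, map_smul, flip_el, flip_el, flip_el]
  simp only [List.reverse_cons, List.reverse_reverse]

lemma conj_fld_el_nil (𝓕 : Fock K F) (g : K) (S : K →L[ℂ] K) :
    𝓕.conj (𝓕.fld g S) (𝓕.el []) = 𝓕.el [g] := by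
  rw [conj_apply, flip_el, List.reverse_nil, fld_el_nil, flip_el, List.reverse_singleton]

lemma fld_comm (𝓕 : Fock K F) {f g : K} {T S : K →L[ℂ] K} (h1 : ⟪f, g⟫_ℂ = ⟪g, f⟫_ℂ)
    (h2 : T g = S f) (h3 : ∀ h, T (S h) = S (T h)) (h4 : ∀ h, ⟪f, S h⟫_ℂ = ⟪g, T h⟫_ℂ) :
    𝓕.fld f T * 𝓕.conj (𝓕.fld g S) = 𝓕.conj (𝓕.fld g S) * 𝓕.fld f T := by
  refine 𝓕.ext fun L => ?_
  change 𝓕.fld f T (𝓕.conj (𝓕.fld g S) (𝓕.el L)) = 𝓕.conj (𝓕.fld g S) (𝓕.fld f T (𝓕.el L))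
  have c := 𝓕.conj_fld_el_concat g S
  cases L with
  | nil =>
    have c1 := c f []
    simp only [List.nil_append, List.singleton_append] at c1
    rw [conj_fld_el_nil, fld_el_nil, fld_el_cons, c1, h1, h2]
  | cons h L =>
    rcases List.eq_nil_or_concat L with rfl | ⟨M, k, rfl⟩
    · have c1 := c h []
      have c2 := c h [f]
      have c3 := c (T h) []
      simp only [List.nil_append, List.cons_append] at c1 c2 c3
      rw [c1, map_add, map_add, map_smul, fld_el_cons, fld_el_cons, fld_el_nil, fld_el_cons,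
        map_add, map_add, map_smul, c2, c3, conj_fld_el_nil, h3, h4]
      module
    · have c1 := c k (h :: M)
      have c2 := c k (f :: h :: M)
      have c3 := c k M
      have c4 := c k (T h :: M)
      simp only [List.cons_append, List.concat_eq_append] at c1 c2 c3 c4 ⊢
      rw [c1, map_add, map_add, map_smul, fld_el_cons, fld_el_cons, fld_el_cons,
        fld_el_cons, map_add, map_add, map_smul, c2, c3, c4]
      module

end Fock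

end Pool.Agent.H20.FP
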